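import Pool.Agent.Work.MP_4833ba_an.Core

-- merged part: Pool.Agent.Work.MP_4833ba_an.Game
section
/-!
# Playing two runs of an ultrafilter tree side by side
-/

namespace Pool.Agent.Work.MP_4833ba_an

open Filter

/-- the ultrafilter on the finite sets reached by a generic run -/
noncomputable def V {κ : Type} : Tr κ → Finset ℕ → Ultrafilter (Finset ℕ)
  | Tr.nil, u => pure u
  | Tr.node _ ch, u => U.bind (fun z => V (ch z) (insert z u))

/-- the same, recording the colour of each step -/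
noncomputable def W {κ : Type} :
    Tr κ → Finset ℕ → (ℕ → Option κ) → Ultrafilter (Finset ℕ × (ℕ → Option κ))
  | Tr.nil, u, χ => pure (u, χ)
  | Tr.node c ch, u, χ => U.bind (fun z => W (ch z) (insert z u) (Function.update χ z c))

lemma ev_bind {α β : Type} (K : Ultrafilter α) (m : α → Ultrafilter β) (p : β → Prop) :
    (∀ᶠ b in (K.bind m : Filter β), p b) ↔ ∀ᶠ a in (K : Filter α), ∀ᶠ b in (m a : Filter β), p b :=
  Iff.rfl

lemma ev_V_nil {κ : Type} (u : Finset ℕ) (p : Finset ℕ → Prop) :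
    (∀ᶠ s in (V (Tr.nil : Tr κ) u).toFilter, p s) ↔ p u := Iff.rfl

lemma ev_V_node {κ : Type} (c : Option κ) (ch : ℕ → Tr κ) (u : Finset ℕ) (p : Finset ℕ → Prop) :
    (∀ᶠ s in (V (Tr.node c ch) u).toFilter, p s) ↔
      ∀ᶠ z in (U : Filter ℕ), ∀ᶠ s in (V (ch z) (insert z u)).toFilter, p s := Iff.rfl

lemma ev_W_nil {κ : Type} (u : Finset ℕ) (χ : ℕ → Option κ)
    (p : Finset ℕ × (ℕ → Option κ) → Prop) :
    (∀ᶠ s in (W (Tr.nil : Tr κ) u χ).toFilter, p s) ↔ p (u, χ) := Iff.rfl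

lemma ev_W_node {κ : Type} (c : Option κ) (ch : ℕ → Tr κ) (u : Finset ℕ) (χ : ℕ → Option κ)
    (p : Finset ℕ × (ℕ → Option κ) → Prop) :
    (∀ᶠ s in (W (Tr.node c ch) u χ).toFilter, p s) ↔
      ∀ᶠ z in (U : Filter ℕ),
        ∀ᶠ s in (W (ch z) (insert z u) (Function.update χ z c)).toFilter, p s := Iff.rfl

lemma ev_gt (u : Finset ℕ) : ∀ᶠ z in (U : Filter ℕ), ∀ k ∈ u, k < z := by
  rw [Filter.eventually_all_finset]
  intro k _
  refine hyperfilter_le_cofinite (α := ℕ) ?_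
  rw [Nat.cofinite_eq_atTop]
  exact eventually_gt_atTop k

lemma ev_notMem (u : Finset ℕ) : ∀ᶠ z in (U : Filter ℕ), z ∉ u :=
  (ev_gt u).mono (fun z hz h => lt_irrefl _ (hz z h))

lemma ev_W_fst {κ : Type} (T : Tr κ) : ∀ (u : Finset ℕ) (χ : ℕ → Option κ) (p : Finset ℕ → Prop),
    (∀ᶠ q in (W T u χ).toFilter, p q.1) ↔ ∀ᶠ s in (V T u).toFilter, p s := by
  induction T with
  | nil => intro u χ p; exact Iff.rfl
  | node c ch ih =>
    intro u χ p
    rw [ev_W_node, ev_V_node]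
    exact eventually_congr (Eventually.of_forall (fun z => ih z _ _ p))

lemma ev_W_map {κ κ' : Type} (m : κ → Option κ') (T : Tr κ) :
    ∀ (u : Finset ℕ) (χ : ℕ → Option κ) (p : Finset ℕ × (ℕ → Option κ') → Prop),
    (∀ᶠ q in (W (T.map m) u (fun n => (χ n).bind m)).toFilter, p q) ↔
      ∀ᶠ q in (W T u χ).toFilter, p (q.1, fun n => (q.2 n).bind m) := by
  induction T with
  | nil => intro u χ p; exact Iff.rfl
  | node c ch ih =>
    intro u χ p
    rw [Tr.map, ev_W_node, ev_W_node]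
    refine eventually_congr (Eventually.of_forall (fun z => ?_))
    rw [← ih z]
    have : Function.update (fun n => (χ n).bind m) z (c.bind m) =
        fun n => (Function.update χ z c n).bind m := by
      funext n
      by_cases h : n = z
      · subst h; simp
      · simp [Function.update_of_ne h]
    rw [this]

lemma ev_inv {κ : Type} (I : Finset ℕ → Prop)
    (hI : ∀ u, I u → ∀ᶠ z in (U : Filter ℕ), I (insert z u)) (T : Tr κ) :
    ∀ u, I u → ∀ᶠ s in (V T u).toFilter, I s := by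
  induction T with
  | nil => intro u h; exact h
  | node c ch ih =>
    intro u h
    rw [ev_V_node]
    exact (hI u h).mono (fun z hz => ih z _ hz)

lemma ev_persist {κ : Type} (T : Tr κ) : ∀ (u : Finset ℕ) (χ : ℕ → Option κ),
    ∀ᶠ q in (W T u χ).toFilter, u ⊆ q.1 ∧ ∀ n ∈ u, q.2 n = χ n := by
  induction T with
  | nil => intro u χ; exact ⟨subset_rfl, fun _ _ => rfl⟩
  | node c ch ih =>
    intro u χ
    rw [ev_W_node]
    filter_upwards [ev_notMem u] with z hz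
    filter_upwards [ih z (insert z u) (Function.update χ z c)] with q hq
    refine ⟨(Finset.subset_insert z u).trans hq.1, fun n hn => ?_⟩
    rw [hq.2 n (Finset.mem_insert_of_mem hn), Function.update_of_ne]
    rintro rfl
    exact hz hn

/-- the outcome of a joint play -/
def Out {κ : Type} (g : Finset ℕ → ℕ → ℝ) (u v : Finset ℕ) (ε : ℝ)
    (q q' : Finset ℕ × (ℕ → Option κ)) : Prop :=
  ∃ S : Finset ℕ, S ⊆ q'.1 \ v ∧ (∀ n ∈ S, n ∈ q.1 \ u ∧ q.2 n = q'.2 n ∧ q.2 n ≠ none) ∧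
    (∀ n ∈ q.1 \ u, q.2 n ≠ none → n ∈ S) ∧ ∑ n ∈ q'.1 \ (v ∪ S), g q.1 n ≤ ε

lemma out_right {κ : Type} {g : Finset ℕ → ℕ → ℝ} (hg : ∀ s n, 0 ≤ g s n) {u v : Finset ℕ}
    {ε : ℝ} {z : ℕ} {q q' : Finset ℕ × (ℕ → Option κ)} (h : Out g u (insert z v) (ε / 2) q q')
    (hz : g q.1 z ≤ ε / 2) : Out g u v ε q q' := by
  obtain ⟨S, h1, h2, h3, h4⟩ := h
  refine ⟨S, h1.trans (Finset.sdiff_subset_sdiff subset_rfl (Finset.subset_insert z v)), h2, h3, ?_⟩
  have hsub : q'.1 \ (v ∪ S) ⊆ insert z (q'.1 \ (insert z v ∪ S)) := by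
    intro n hn
    simp only [Finset.mem_sdiff, Finset.mem_union, Finset.mem_insert] at hn ⊢
    tauto
  have hnot : z ∉ q'.1 \ (insert z v ∪ S) := by simp
  calc ∑ n ∈ q'.1 \ (v ∪ S), g q.1 n ≤ ∑ n ∈ insert z (q'.1 \ (insert z v ∪ S)), g q.1 n :=
        Finset.sum_le_sum_of_subset_of_nonneg hsub (fun n _ _ => hg _ n)
    _ = g q.1 z + ∑ n ∈ q'.1 \ (insert z v ∪ S), g q.1 n := Finset.sum_insert hnot
    _ ≤ ε := by linarith only [hz, h4]

lemma play {κ : Type} (g : Finset ℕ → ℕ → ℝ) (hg : ∀ s n, 0 ≤ g s n)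
    (hsmall : ∀ (K : Ultrafilter (Finset ℕ)) (ε : ℝ), 0 < ε →
      ∀ᶠ z in (U : Filter ℕ), ∀ᶠ s in (K).toFilter, g s z ≤ ε)
    {r' r : Tr κ} (h : Sim r' r) :
    ∀ (u v : Finset ℕ) (χ ψ : ℕ → Option κ) (ε : ℝ)
      (P P' : Finset ℕ × (ℕ → Option κ) → Prop), 0 < ε →
      (∀ᶠ q in (W r' u χ).toFilter, P q) → (∀ᶠ q in (W r v ψ).toFilter, P' q) →
      ∃ q q', P q ∧ P' q' ∧ Out g u v ε q q' := by
  induction h with
  | nil r =>
    intro u v χ ψ ε P P' hε hP hP'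
    have key : ∃ q', P' q' ∧ Out g u v ε (u, χ) q' := by
      induction r generalizing v ψ ε with
      | nil => exact ⟨(v, ψ), hP', ∅, by simp, by simp, by simp, by simpa using hε.le⟩
      | node d ch ih =>
        rw [ev_W_node] at hP'
        obtain ⟨z, hz1, hz2⟩ := (hP'.and (hsmall (pure u) (ε / 2) (by positivity))).exists
        obtain ⟨q', h2, h3⟩ := ih z (insert z v) _ (ε / 2) (by positivity) hz1
        exact ⟨q', h2, out_right hg h3 hz2⟩
    obtain ⟨q', h2, h3⟩ := key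
    exact ⟨(u, χ), q', hP, h2, h3⟩
  | left ch' r S hS h ih =>
    intro u v χ ψ ε P P' hε hP hP'
    rw [ev_W_node] at hP
    obtain ⟨z, hz1, hz2⟩ := (hP.and hS).exists
    obtain ⟨q, q', ⟨h1, h1'⟩, h2, S', h3, h4, h5, h6⟩ := ih z hz2 (insert z u) v _ ψ ε _ P' hε
      (hz1.and (ev_persist _ _ _)) hP'
    refine ⟨q, q', h1, h2, S', h3, fun n hn => ⟨?_, (h4 n hn).2⟩, fun n hn hn' => h5 n ?_ hn', h6⟩
    · exact Finset.sdiff_subset_sdiff subset_rfl (Finset.subset_insert z u) (h4 n hn).1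
    · have hne : n ≠ z := by
        rintro rfl
        apply hn'
        rw [h1'.2 n (Finset.mem_insert_self _ _), Function.update_self]
      simp only [Finset.mem_sdiff, Finset.mem_insert] at hn ⊢
      tauto
  | right r' d ch S hS h ih =>
    intro u v χ ψ ε P P' hε hP hP'
    rw [ev_W_node] at hP'
    obtain ⟨z, ⟨hz1, hz2⟩, hz3⟩ :=
      ((hP'.and hS).and (hsmall (V r' u) (ε / 2) (by positivity))).exists
    rw [← ev_W_fst r' u χ] at hz3
    obtain ⟨q, q', ⟨h1, h1'⟩, h2, h3⟩ := ih z hz2 u (insert z v) χ _ (ε / 2) _ P' (by positivity)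
      (hP.and hz3) hz1
    exact ⟨q, q', h1, h2, out_right hg h3 h1'⟩
  | both c ch' ch S hS h ih =>
    intro u v χ ψ ε P P' hε hP hP'
    rw [ev_W_node] at hP hP'
    obtain ⟨z, ⟨⟨⟨hz1, hz2⟩, hz3⟩, hz4⟩, hz5⟩ :=
      ((((hP.and hP').and hS).and (ev_notMem u)).and (ev_notMem v)).exists
    obtain ⟨q, q', ⟨h1, h1'⟩, ⟨h2, h2'⟩, S', h3, h4, h5, h6⟩ := ih z hz3 (insert z u) (insert z v)
      _ _ ε _ _ hε (hz1.and (ev_persist _ _ _)) (hz2.and (ev_persist _ _ _))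
    have e1 : q.2 z = some c := by
      rw [h1'.2 z (Finset.mem_insert_self _ _), Function.update_self]
    have e2 : q'.2 z = some c := by
      rw [h2'.2 z (Finset.mem_insert_self _ _), Function.update_self]
    refine ⟨q, q', h1, h2, insert z S', ?_, ?_, ?_, ?_⟩
    · intro n hn
      rcases Finset.mem_insert.1 hn with rfl | hn
      · exact Finset.mem_sdiff.2 ⟨h2'.1 (Finset.mem_insert_self _ _), hz5⟩
      · exact Finset.sdiff_subset_sdiff subset_rfl (Finset.subset_insert z v) (h3 hn)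
    · intro n hn
      rcases Finset.mem_insert.1 hn with rfl | hn
      · exact ⟨Finset.mem_sdiff.2 ⟨h1'.1 (Finset.mem_insert_self _ _), hz4⟩, by rw [e1, e2],
          by rw [e1]; simp⟩
      · exact ⟨Finset.sdiff_subset_sdiff subset_rfl (Finset.subset_insert z u) (h4 n hn).1,
          (h4 n hn).2⟩
    · intro n hn hn'
      by_cases hne : n = z
      · rw [hne]; exact Finset.mem_insert_self _ _
      · refine Finset.mem_insert_of_mem (h5 n ?_ hn')
        simp only [Finset.mem_sdiff, Finset.mem_insert] at hn ⊢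
        tauto
    · have : v ∪ insert z S' = insert z v ∪ S' := by
        ext n; simp only [Finset.mem_union, Finset.mem_insert]; tauto
      rw [this]; exact h6

end Pool.Agent.Work.MP_4833ba_an
end

-- merged part: Pool.Agent.Work.MP_4833ba_an.Analysis
section
/-!
# Weakly null sequences along the ultrafilter
-/

namespace Pool.Agent.Work.MP_4833ba_an

open Filter Topology

variable {X : Type*} [NormedAddCommGroup X] [NormedSpace ℝ X]

lemma U_le_atTop : (U : Filter ℕ) ≤ atTop := by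
  rw [← Nat.cofinite_eq_atTop]
  exact hyperfilter_le_cofinite (α := ℕ)

lemma ev_small {x : ℕ → X} (hx : ∀ f : X →L[ℝ] ℝ, Tendsto (fun n => f (x n)) atTop (𝓝 0))
    (f : X →L[ℝ] ℝ) {ε : ℝ} (hε : 0 < ε) : ∀ᶠ z in (U : Filter ℕ), |f (x z)| < ε := by
  have h := (hx f).abs.mono_left U_le_atTop
  rw [abs_zero] at h
  exact h.eventually (gt_mem_nhds hε)

lemma small_dual {x : ℕ → X} (hx : ∀ f : X →L[ℝ] ℝ, Tendsto (fun n => f (x n)) atTop (𝓝 0))
    {L : Type} (f : L → X →L[ℝ] ℝ) (hf : ∀ l, ‖f l‖ ≤ 1) (K : Ultrafilter L) (ε : ℝ)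
    (hε : 0 < ε) : ∀ᶠ z in (U : Filter ℕ), ∀ᶠ l in K.toFilter, |f l (x z)| ≤ ε := by
  have hc := WeakDual.isCompact_closedBall (0 : StrongDual ℝ X) 1
  obtain ⟨φ, -, hφ⟩ := hc.ultrafilter_le_nhds (K.map (fun l => StrongDual.toWeakDual (f l))) (by
    rw [Ultrafilter.coe_map, le_principal_iff, mem_map]
    refine Eventually.of_forall (fun l => ?_)
    simpa using hf l)
  filter_upwards [ev_small hx (WeakDual.toStrongDual φ) hε] with z hz
  have h1 : Tendsto (fun l => f l (x z)) K.toFilter (𝓝 (φ (x z))) :=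
    ((WeakDual.eval_continuous (x z)).tendsto φ).comp hφ
  exact (h1.abs.eventually (gt_mem_nhds hz)).mono (fun l hl => hl.le)

lemma mazur_step {x : ℕ → X} (hn : ∀ n, ‖x n‖ = 1)
    (hx : ∀ f : X →L[ℝ] ℝ, Tendsto (fun n => f (x n)) atTop (𝓝 0)) (u : Finset ℕ) {ε : ℝ}
    (hε : 0 < ε) : ∀ᶠ z in (U : Filter ℕ), ∀ (a : ℕ → ℝ) (t : ℝ),
      ‖∑ n ∈ u, a n • x n‖ ≤ (1 + ε) * ‖∑ n ∈ u, a n • x n + t • x z‖ := by
  classical
  let F : Submodule ℝ X := Submodule.span ℝ ((u.image x : Finset X) : Set X)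
  have hK : IsCompact (F.subtype '' Metric.sphere (0 : F) 1) :=
    (isCompact_sphere _ _).image continuous_subtype_val
  have hη : 0 < ε / (3 * (1 + ε)) := by positivity
  have hs : {p : ℕ × X | ∀ t : ℝ, |t| ≤ 2 → 1 ≤ (1 + ε) * ‖p.2 + t • x p.1‖} ∈
      (U : Filter ℕ) ×ˢ 𝓝ˢ (F.subtype '' Metric.sphere (0 : F) 1) := by
    refine hK.mem_prod_nhdsSet_of_forall (fun y hy => ?_)
    obtain ⟨y', hy', rfl⟩ := hy
    have hy1 : ‖(y' : X)‖ = 1 := by simpa using hy'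
    obtain ⟨f, hf1, hf2⟩ := exists_dual_vector'' ℝ (y' : X)
    refine mem_of_superset (prod_mem_prod (ev_small hx f hη)
      (Metric.ball_mem_nhds (y' : X) hη)) ?_
    rintro ⟨z, w⟩ ⟨hz, hw⟩ t ht
    have hz' : |f (x z)| < ε / (3 * (1 + ε)) := hz
    have hw' : ‖w - y'‖ < ε / (3 * (1 + ε)) := by simpa [dist_eq_norm] using hw
    have h1 : f (w + t • x z) ≤ ‖w + t • x z‖ :=
      (le_abs_self _).trans ((f.le_opNorm _).trans (mul_le_of_le_one_left (norm_nonneg _) hf1))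
    have h2 : |f (w - y')| ≤ ‖w - y'‖ :=
      (f.le_opNorm _).trans (mul_le_of_le_one_left (norm_nonneg _) hf1)
    have h3 : f (w + t • x z) = 1 + f (w - y') + t * f (x z) := by
      have : f y' = 1 := by simpa [hy1] using hf2
      simp [this]
    have h4 : |t * f (x z)| ≤ 2 * (ε / (3 * (1 + ε))) := by
      rw [abs_mul]; exact mul_le_mul ht hz'.le (abs_nonneg _) (by norm_num)
    have h5 : 1 - 3 * (ε / (3 * (1 + ε))) ≤ ‖w + t • x z‖ := by
      have := neg_abs_le (f (w - y'))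
      have := neg_abs_le (t * f (x z))
      linarith
    have h6 : (1 + ε) * (1 - 3 * (ε / (3 * (1 + ε)))) = 1 := by field_simp; ring
    calc (1 : ℝ) = (1 + ε) * (1 - 3 * (ε / (3 * (1 + ε)))) := h6.symm
      _ ≤ (1 + ε) * ‖w + t • x z‖ := by gcongr
  obtain ⟨t1, ht1, t2, ht2, hsub⟩ := mem_prod_iff.1 hs
  filter_upwards [ht1] with z hz a t
  set y := ∑ n ∈ u, a n • x n with hy
  by_cases h0 : y = 0
  · rw [h0, norm_zero]; positivity
  have hpos : 0 < ‖y‖ := norm_pos_iff.2 h0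
  have hyF : y ∈ F := Submodule.sum_mem _ (fun n hn => Submodule.smul_mem _ _
    (Submodule.subset_span (by simpa using ⟨n, hn, rfl⟩)))
  have hmem : (‖y‖⁻¹ • y) ∈ t2 := by
    refine subset_of_mem_nhdsSet ht2 ⟨⟨‖y‖⁻¹ • y, F.smul_mem _ hyF⟩, ?_, rfl⟩
    simp [norm_smul, hpos.ne']
  have hkey : 1 ≤ (1 + ε) * ‖‖y‖⁻¹ • y + (‖y‖⁻¹ * t) • x z‖ := by
    by_cases ht : |‖y‖⁻¹ * t| ≤ 2
    · exact hsub (Set.mk_mem_prod hz hmem) _ ht
    · have h1 : ‖(‖y‖⁻¹ * t) • x z‖ ≤ ‖‖y‖⁻¹ • y + (‖y‖⁻¹ * t) • x z‖ + ‖‖y‖⁻¹ • y‖ := by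
        have := norm_sub_le (‖y‖⁻¹ • y + (‖y‖⁻¹ * t) • x z) (‖y‖⁻¹ • y)
        simpa using this
      have h2 : ‖‖y‖⁻¹ • y‖ = 1 := by simp [norm_smul, hpos.ne']
      rw [norm_smul, hn z, h2, Real.norm_eq_abs] at h1
      linarith only [hε, ht, h1, norm_nonneg (‖y‖⁻¹ • y + (‖y‖⁻¹ * t) • x z), mul_pos_of_neg_of_neg (Mathlib.Tactic.Linarith.sub_neg_of_lt hε) (Mathlib.Tactic.Linarith.sub_neg_of_lt (lt_of_not_ge ht)), mul_nonneg_of_nonpos_of_nonpos (le_of_lt (Mathlib.Tactic.Linarith.sub_neg_of_lt hε)) (Mathlib.Tactic.Linarith.sub_nonpos_of_le h1)]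
  rw [mul_smul, ← smul_add, norm_smul, norm_inv, norm_norm] at hkey
  have := mul_le_mul_of_nonneg_left hkey hpos.le
  calc ‖y‖ = ‖y‖ * 1 := (mul_one _).symm
    _ ≤ _ := this
    _ = _ := by field_simp

/-- the vectors indexed by `u` have basis constant below two -/
def Basic (x : ℕ → X) (u : Finset ℕ) : Prop :=
  ∃ c : ℝ, 1 ≤ c ∧ c < 2 ∧ ∀ (a : ℕ → ℝ) (m : ℕ),
    ‖∑ n ∈ u.filter (· < m), a n • x n‖ ≤ c * ‖∑ n ∈ u, a n • x n‖

lemma basic_empty (x : ℕ → X) : Basic x ∅ := ⟨1, le_rfl, by norm_num, by simp⟩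

lemma basic_step {x : ℕ → X} (hn : ∀ n, ‖x n‖ = 1)
    (hx : ∀ f : X →L[ℝ] ℝ, Tendsto (fun n => f (x n)) atTop (𝓝 0)) (u : Finset ℕ)
    (h : Basic x u) : ∀ᶠ z in (U : Filter ℕ), Basic x (insert z u) := by
  obtain ⟨c, hc1, hc2, hc⟩ := h
  have hε : 0 < (2 - c) / 4 := by linarith only [hc2]
  filter_upwards [mazur_step hn hx u hε, ev_gt u] with z hz hgt
  have hzu : z ∉ u := fun h => lt_irrefl _ (hgt z h)
  refine ⟨c * (1 + (2 - c) / 4), by linarith only [hc1, hc2, mul_nonneg_of_nonpos_of_nonpos (Mathlib.Tactic.Linarith.sub_nonpos_of_le hc1) (le_of_lt (Mathlib.Tactic.Linarith.sub_neg_of_lt hc2))], by linarith only [hc2, mul_pos_of_neg_of_neg (Mathlib.Tactic.Linarith.sub_neg_of_lt hc2) (Mathlib.Tactic.Linarith.sub_neg_of_lt hc2)], fun a m => ?_⟩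
  by_cases hm : z < m
  · have : (insert z u).filter (· < m) = insert z u := by
      refine Finset.filter_true_of_mem (fun n hn => ?_)
      rcases Finset.mem_insert.1 hn with rfl | hn
      · exact hm
      · exact (hgt n hn).trans hm
    rw [this]
    exact le_mul_of_one_le_left (norm_nonneg _) (by linarith only [hc1, hc2, mul_nonneg_of_nonpos_of_nonpos (Mathlib.Tactic.Linarith.sub_nonpos_of_le hc1) (le_of_lt (Mathlib.Tactic.Linarith.sub_neg_of_lt hc2))])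
  · rw [Finset.filter_insert, if_neg hm, Finset.sum_insert hzu, add_comm (a z • x z), mul_assoc]
    exact (hc a m).trans (mul_le_mul_of_nonneg_left (hz a (a z)) (by linarith only [hc1]))

lemma basic_coeff {x : ℕ → X} (hn : ∀ n, ‖x n‖ = 1) {u : Finset ℕ} (h : Basic x u) (a : ℕ → ℝ)
    {k : ℕ} (hk : k ∈ u) : |a k| ≤ 4 * ‖∑ n ∈ u, a n • x n‖ := by
  obtain ⟨c, hc1, hc2, hc⟩ := h
  have h1 : u.filter (· < k + 1) = insert k (u.filter (· < k)) := by
    ext n
    simp only [Finset.mem_filter, Finset.mem_insert]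
    constructor
    · rintro ⟨h1, h2⟩
      rcases Nat.lt_succ_iff_lt_or_eq.1 h2 with h | h
      · exact Or.inr ⟨h1, h⟩
      · exact Or.inl h
    · rintro (rfl | ⟨h1, h2⟩)
      · exact ⟨hk, Nat.lt_succ_self _⟩
      · exact ⟨h1, h2.trans (Nat.lt_succ_self _)⟩
  have h2 := hc a (k + 1)
  have h3 := hc a k
  rw [h1, Finset.sum_insert (by simp)] at h2
  have h4 := norm_sub_le (a k • x k + ∑ n ∈ u.filter (· < k), a n • x n)
    (∑ n ∈ u.filter (· < k), a n • x n)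
  rw [add_sub_cancel_right, norm_smul, hn k, Real.norm_eq_abs] at h4
  linarith only [h2, h3, h4, hc2, norm_nonneg (∑ n ∈ u, a n • x n), mul_nonneg_of_nonpos_of_nonpos (le_of_lt (Mathlib.Tactic.Linarith.sub_neg_of_lt hc2)) (Mathlib.Tactic.Linarith.sub_nonpos_of_le (norm_nonneg (∑ n ∈ u, a n • x n)))]

end Pool.Agent.Work.MP_4833ba_an
end

-- merged part: Pool.Agent.Work.MP_4833ba_an.Accept
section
/-!
# Accepting and rejecting finite sets, descent and generic colours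
-/

namespace Pool.Agent.Work.MP_4833ba_an

open Filter

/-- `Acc B s`: a generic run from `s` reaches a set with property `B` -/
inductive Acc (B : Finset ℕ → Prop) : Finset ℕ → Prop
  | base (s : Finset ℕ) (h : B s) : Acc B s
  | step (s : Finset ℕ) (S : Set ℕ) (hS : S ∈ U) (h : ∀ z ∈ S, Acc B (insert z s)) : Acc B s

lemma acc_tree {B : Finset ℕ → Prop} {s : Finset ℕ} (h : Acc B s) :
    ∃ T : Tr Unit, ∀ᶠ s' in (V T s).toFilter, B s' := by
  induction h with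
  | base s h => exact ⟨Tr.nil, h⟩
  | step s S hS h ih =>
    have : ∀ z, ∃ T : Tr Unit, z ∈ S → ∀ᶠ s' in (V T (insert z s)).toFilter, B s' := by
      intro z
      by_cases hz : z ∈ S
      · obtain ⟨T, hT⟩ := ih z hz
        exact ⟨T, fun _ => hT⟩
      · exact ⟨Tr.nil, fun h => absurd h hz⟩
    choose T hT using this
    refine ⟨Tr.node none T, ?_⟩
    rw [ev_V_node]
    exact mem_of_superset hS (fun z hz => hT z hz)

lemma rej_step {B : Finset ℕ → Prop} {s : Finset ℕ} (h : ¬ Acc B s) :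
    ∀ᶠ z in (U : Filter ℕ), ¬ Acc B (insert z s) :=
  Ultrafilter.eventually_not.2 (fun h' => h (Acc.step s _ h' (fun _ hz => hz)))

lemma exists_path (I : Finset ℕ → Prop) (h0 : I ∅)
    (hI : ∀ u, I u → ∀ᶠ z in (U : Filter ℕ), I (insert z u)) :
    ∃ φ : ℕ → ℕ, StrictMono φ ∧ ∀ k, I ((Finset.range k).image φ) := by
  have : ∀ u : {u // I u}, ∃ z, I (insert z u.1) ∧ ∀ k ∈ u.1, k < z :=
    fun u => ((hI u.1 u.2).and (ev_gt u.1)).exists
  choose nx h1 h2 using this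
  let Bs : ℕ → {u // I u} := fun k => Nat.rec ⟨∅, h0⟩ (fun _ u => ⟨insert (nx u) u.1, h1 u⟩) k
  have hB : ∀ k, (Bs k).1 = (Finset.range k).image (fun k => nx (Bs k)) := by
    intro k
    induction k with
    | zero => rfl
    | succ k ih => rw [Finset.range_add_one, Finset.image_insert, ← ih]
  refine ⟨fun k => nx (Bs k), strictMono_nat_of_lt_succ (fun k => ?_), fun k => ?_⟩
  · exact h2 (Bs (k + 1)) _ (Finset.mem_insert_self _ _)
  · rw [← hB]; exact (Bs k).2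

lemma descend {κ : Type} (N : Finset ℕ → ℝ) (θ : ℝ) (hθ : 0 < θ) (Q : Finset ℕ → Prop) (T : Tr κ) :
    ∀ u : Finset ℕ, (∀ᶠ s in (V T u).toFilter, Q s ∧ (u.card : ℝ) ≤ θ * N s) →
      ∃ (T' : Tr κ) (d : Finset ℕ) (C : ℝ),
        ∀ᶠ s in (V T' d).toFilter, Q s ∧ (d.card : ℝ) ≤ θ * N s ∧ N s ≤ C := by
  induction T with
  | nil => intro u h; exact ⟨Tr.nil, u, N u, h.1, h.2, le_rfl⟩
  | node c ch ih =>
    intro u h
    by_cases hb : ∀ᶠ s in (V (Tr.node c ch) u).toFilter, N s ≤ (u.card + 1) / θ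
    · exact ⟨_, u, _, (h.and hb).mono (fun s hs => ⟨hs.1.1, hs.1.2, hs.2⟩)⟩
    · have h2 := h.and (Ultrafilter.eventually_not.2 hb)
      rw [ev_V_node] at h2
      obtain ⟨z, hz⟩ := h2.exists
      refine ih z (insert z u) (hz.mono (fun s hs => ⟨hs.1.1, ?_⟩))
      have h3 : ((insert z u).card : ℝ) ≤ u.card + 1 := by exact_mod_cast Finset.card_insert_le z u
      have h4 := (div_lt_iff₀ hθ).1 (not_le.1 hs.2)
      linarith only [h3, h4]

lemma exists_typed {κ : Type} [Finite κ] (ty : Finset ℕ → ℕ → Option κ) (T : Tr Unit) :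
    ∀ u : Finset ℕ, ∃ r : Tr κ,
      (∀ p : Finset ℕ → Prop, (∀ᶠ s in (V T u).toFilter, p s) → ∀ᶠ s in (V r u).toFilter, p s) ∧
      ∀ χ, ∀ᶠ q in (W r u χ).toFilter, ∀ n ∈ q.1 \ u, q.2 n = ty q.1 n := by
  induction T with
  | nil => intro u; exact ⟨Tr.nil, fun p h => h, fun χ => by rw [ev_W_nil]; simp⟩
  | node c ch ih =>
    intro u
    choose r h1 h2 using fun z => ih z (insert z u)
    obtain ⟨l, hl⟩ := Ultrafilter.eq_pure_of_finite
      (U.bind (fun z => (V (r z) (insert z u)).map (fun s => ty s z)))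
    have hl2 : ∀ᶠ z in (U : Filter ℕ), ∀ᶠ s in (V (r z) (insert z u)).toFilter, ty s z = l := by
      have : ∀ᶠ y in (U.bind (fun z => (V (r z) (insert z u)).map (fun s => ty s z))).toFilter,
          y = l := by rw [hl]; exact rfl
      exact this
    refine ⟨Tr.node l r, fun p hp => ?_, fun χ => ?_⟩
    · rw [ev_V_node] at hp ⊢
      exact hp.mono (fun z hz => h1 z p hz)
    · rw [ev_W_node]
      filter_upwards [hl2] with z hz
      rw [← ev_W_fst (r z) _ (Function.update χ z l)] at hz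
      filter_upwards [hz, h2 z (Function.update χ z l), ev_persist (r z) (insert z u)
        (Function.update χ z l)] with q hq1 hq2 hq3 n hn
      by_cases hne : n = z
      · rw [hne, hq3.2 z (Finset.mem_insert_self _ _), Function.update_self, hq1]
      · refine hq2 n ?_
        simp only [Finset.mem_sdiff, Finset.mem_insert] at hn ⊢
        tauto

/-- The combinatorial outcome used by the Banach space argument: two generic sets `s`, `t` and a
set `S` of equally coloured shared points carrying half of the weight. -/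
lemma exists_pair (hcore : CoreStatement) {κ : Type} [Finite κ] (ty : Finset ℕ → ℕ → Option κ)
    (w g : Finset ℕ → ℕ → ℝ) (hw : ∀ s n, ty s n ≠ none → 0 ≤ w s n) (hg : ∀ s n, 0 ≤ g s n)
    (hsmall : ∀ (K : Ultrafilter (Finset ℕ)) (ε : ℝ), 0 < ε →
      ∀ᶠ z in (U : Filter ℕ), ∀ᶠ s in K.toFilter, g s z ≤ ε)
    (T : Tr Unit) (d : Finset ℕ) (Q : Finset ℕ → Prop) (hQ : ∀ᶠ s in (V T d).toFilter, Q s)
    {ε : ℝ} (hε : 0 < ε) :
    ∃ s t S : Finset ℕ, Q s ∧ Q t ∧ d ⊆ t ∧ S ⊆ t \ d ∧ (∀ n ∈ S, ty s n = ty t n ∧ ty s n ≠ none) ∧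
      ∑ n ∈ (s \ d).filter (fun n => ty s n ≠ none), w s n ≤ 2 * ∑ n ∈ S, w s n ∧
      ∑ n ∈ t \ (d ∪ S), g s n ≤ ε := by
  classical
  obtain ⟨r, hr1, hr2⟩ := exists_typed ty T d
  obtain ⟨a, ha, hf, ht⟩ := hcore κ r
  have hQr : ∀ᶠ q in (W r d (fun _ => none)).toFilter,
      Q q.1 ∧ (∀ n ∈ q.1 \ d, q.2 n = ty q.1 n) ∧ d ⊆ q.1 :=
    ((ev_W_fst r d _ Q).2 (hr1 Q hQ)).and ((hr2 _).and ((ev_persist r d _).mono (fun q h => h.1)))
  have hQa : ∀ᶠ q in (W a d (fun _ => none)).toFilter,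
      Q q.1 ∧ (∀ n ∈ q.1 \ d, (q.2 n).bind (fun p => some p.1) = ty q.1 n) := by
    have h1 := hQr
    rw [← ha] at h1
    exact ((ev_W_map (fun p : κ × Bool => some p.1) a d (fun _ => none) _).1 h1).mono
      (fun q h => ⟨h.1, h.2.1⟩)
  let m : Bool → κ × Bool → Option κ := fun b p => if p.2 = b then some p.1 else none
  let H : Finset ℕ × (ℕ → Option κ) → Prop := fun q =>
    ∑ n ∈ (q.1 \ d).filter (fun n => ty q.1 n ≠ none), w q.1 n ≤
      2 * ∑ n ∈ (q.1 \ d).filter (fun n => q.2 n ≠ none), w q.1 n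
  have hdich : ∀ᶠ q in (W a d (fun _ => none)).toFilter,
      H (q.1, fun n => (q.2 n).bind (m false)) ∨ H (q.1, fun n => (q.2 n).bind (m true)) := by
    filter_upwards [hQa] with q hq
    have hsum : ∑ n ∈ (q.1 \ d).filter (fun n => ty q.1 n ≠ none), w q.1 n =
        ∑ n ∈ (q.1 \ d).filter (fun n => (q.2 n).bind (m false) ≠ none), w q.1 n +
        ∑ n ∈ (q.1 \ d).filter (fun n => (q.2 n).bind (m true) ≠ none), w q.1 n := by
      simp only [Finset.sum_filter]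
      rw [← Finset.sum_add_distrib]
      refine Finset.sum_congr rfl (fun n hn => ?_)
      rw [← hq.2 n hn]
      rcases q.2 n with _ | ⟨c, _ | _⟩ <;> simp [m]
    by_contra hcon
    rw [not_or] at hcon
    have h1 := not_le.1 hcon.1
    have h2 := not_le.1 hcon.2
    dsimp only at h1 h2
    linarith only [hsum, hcon]
  obtain ⟨b, hb, hsim⟩ : ∃ b, (∀ᶠ q in (W a d (fun _ => none)).toFilter,
      H (q.1, fun n => (q.2 n).bind (m b))) ∧ Sim (keep b a) r := by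
    rcases Ultrafilter.eventually_or.1 hdich with h | h
    · exact ⟨false, h, hf⟩
    · exact ⟨true, h, ht⟩
  have hP : ∀ᶠ q in (W (keep b a) d (fun _ => none)).toFilter,
      Q q.1 ∧ (∀ n ∈ q.1 \ d, q.2 n ≠ none → q.2 n = ty q.1 n) ∧ H q := by
    refine (ev_W_map (m b) a d (fun _ => none) _).2 ?_
    filter_upwards [hQa, hb] with q hq1 hq2
    refine ⟨hq1.1, fun n hn => ?_, hq2⟩
    rw [← hq1.2 n hn]
    rcases q.2 n with _ | ⟨c, b'⟩
    · simp
    · by_cases hb' : b' = b <;> simp [m, hb']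
  obtain ⟨q, q', ⟨h1, h2, h3⟩, ⟨h4, h5, h6⟩, S, h7, h8, h9, h10⟩ :=
    play g hg hsmall hsim d d _ _ ε _ _ hε hP hQr
  have hS : ∀ n ∈ S, ty q.1 n = ty q'.1 n ∧ ty q.1 n ≠ none := by
    intro n hn
    obtain ⟨k1, k2, k3⟩ := h8 n hn
    rw [← h2 n k1 k3, ← h5 n (h7 hn)]
    exact ⟨k2, k3⟩
  refine ⟨q.1, q'.1, S, h1, h4, h6, h7, hS, h3.trans ?_, h10⟩
  refine mul_le_mul_of_nonneg_left (Finset.sum_le_sum_of_subset_of_nonneg (fun n hn => ?_)
    (fun n hn _ => hw _ n (hS n hn).2)) (by norm_num)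
  exact h9 n (Finset.mem_filter.1 hn).1 (Finset.mem_filter.1 hn).2

end Pool.Agent.Work.MP_4833ba_an
end

-- merged part: Pool.Agent.Work.MP_4833ba_an.Banach
section
/-!
# From the combinatorial core to near unconditional subsequences
-/

namespace Pool.Agent.Work.MP_4833ba_an

open Filter Topology

variable {X : Type*} [NormedAddCommGroup X] [NormedSpace ℝ X]

/-- the vectors indexed by `s` violate the near unconditional estimate -/
def BadSet (x : ℕ → X) (δ K : ℝ) (s : Finset ℕ) : Prop :=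
  ∃ (a : ℕ → ℝ) (G : Finset ℕ), G ⊆ s ∧ (∀ n ∈ s, |a n| ≤ 1) ∧ (∀ n ∈ G, δ ≤ |a n|) ∧
    K * ‖∑ n ∈ s, a n • x n‖ < ‖∑ n ∈ G, a n • x n‖

lemma arith {K θ ν Ns Nt D A B : ℝ} (hK : 2 < K) (hθ : θ = (K - 2) / (10 + 2 * K)) (hν : 0 < ν)
    (h1 : ν - θ * ν ≤ Ns) (h2 : Nt ≤ ν + θ * ν) (h3 : D ≤ θ * Ns) (h4 : D ≤ θ * Nt)
    (h5 : K * Ns < D + A) (h6 : A ≤ 2 * B) (h7 : -D + (1 - θ) * B - θ * ν ≤ Nt) : False := by
  have hθ0 : 0 < θ := by rw [hθ]; apply div_pos <;> linarith only [hK]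
  have hθ1 : θ * (10 + 2 * K) = K - 2 := by rw [hθ]; field_simp
  have hθ2 : θ < 1 / 2 := by (refine lt_of_not_ge fun h_nl => ?_; linarith only [h_nl, hθ0, hθ1, hK, mul_nonneg_of_nonpos_of_nonpos (le_of_lt (Mathlib.Tactic.Linarith.sub_neg_of_lt hK)) (Mathlib.Tactic.Linarith.sub_nonpos_of_le h_nl)])
  have e1 : (K - θ) * (ν - θ * ν) ≤ (K - θ) * Ns := by gcongr; linarith only [hK, hθ0, hθ2]
  have e2 : (K - θ) * (ν - θ * ν) ≤ 2 * B := by linarith only [h3, h5, h6, e1]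
  have e3 : (1 - θ) * ((K - θ) * (ν - θ * ν)) ≤ (1 - θ) * (2 * B) := by gcongr; linarith only [hθ0, hθ2]
  have e4 : θ * Nt ≤ θ * (ν + θ * ν) := by gcongr
  have e5 : (1 - θ) * ((K - θ) * (1 - θ)) * ν ≤ (2 + 6 * θ + 2 * θ ^ 2) * ν := by linarith only [h2, h4, h7, e3, e4]
  have e6 : (1 - θ) * ((K - θ) * (1 - θ)) ≤ 2 + 6 * θ + 2 * θ ^ 2 := le_of_mul_le_mul_right e5 hν
  linarith only [hθ0, hθ1, e6, hK, hθ2, mul_pos hθ0 hθ0, mul_pos (mul_pos hθ0 hθ0) (show 0 < K - θ by linarith)]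

lemma close_of_floor {a a' η : ℝ} (hη : 0 < η) (h : ⌊a / η⌋ = ⌊a' / η⌋) : |a - a'| ≤ η := by
  have h1 := Int.abs_sub_lt_one_of_floor_eq_floor h
  rw [← sub_div, abs_div, abs_of_pos hη, div_lt_one hη] at h1
  exact h1.le

lemma not_acc (hcore : CoreStatement) {x : ℕ → X} (hn : ∀ n, ‖x n‖ = 1)
    (hx : ∀ f : X →L[ℝ] ℝ, Tendsto (fun n => f (x n)) atTop (𝓝 0)) {δ K : ℝ} (hδ : 0 < δ)
    (hK : 2 < K) : ¬ Acc (BadSet x δ K) ∅ := by
  classical
  intro hacc
  obtain ⟨T, hT⟩ := acc_tree hacc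
  have hdata : ∀ s : Finset ℕ, ∃ (a : ℕ → ℝ) (G : Finset ℕ) (f : X →L[ℝ] ℝ), ‖f‖ ≤ 1 ∧
      (BadSet x δ K s → G ⊆ s ∧ (∀ n ∈ s, |a n| ≤ 1) ∧ (∀ n ∈ G, δ ≤ |a n|) ∧
        K * ‖∑ n ∈ s, a n • x n‖ < f (∑ n ∈ G, a n • x n)) := by
    intro s
    by_cases h : BadSet x δ K s
    · obtain ⟨a, G, h1, h2, h3, h4⟩ := h
      obtain ⟨f, hf1, hf2⟩ := exists_dual_vector'' ℝ (∑ n ∈ G, a n • x n)
      exact ⟨a, G, f, hf1, fun _ => ⟨h1, h2, h3, by rw [hf2]; exact h4⟩⟩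
    · exact ⟨0, ∅, 0, by simp, fun h' => absurd h' h⟩
  choose a G f hf hd using hdata
  have hfx : ∀ s y, |f s y| ≤ ‖y‖ := fun s y =>
    ((f s).le_opNorm _).trans (mul_le_of_le_one_left (norm_nonneg _) (hf s))
  obtain ⟨θ, hθ⟩ : ∃ θ, θ = (K - 2) / (10 + 2 * K) := ⟨_, rfl⟩
  have hθ0 : 0 < θ := by rw [hθ]; apply div_pos <;> linarith only [hK]
  have hθ1 : θ < 1 := by rw [hθ, div_lt_one] <;> linarith only [hK]
  have hη : 0 < θ * δ := by positivity
  let N : Finset ℕ → ℝ := fun s => ‖∑ n ∈ s, a s n • x n‖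
  obtain ⟨T', d, C, hT'⟩ := descend N θ hθ0 (fun s => BadSet x δ K s ∧ Basic x s) T ∅
    ((hT.and (ev_inv _ (basic_step hn hx) T ∅ (basic_empty x))).mono
      (fun s hs => ⟨hs, by simpa using mul_nonneg hθ0.le (norm_nonneg _)⟩))
  have hlow : ∀ s, BadSet x δ K s ∧ Basic x s → δ / 4 ≤ N s := by
    rintro s ⟨h1, h2⟩
    obtain ⟨k1, k2, k3, k4⟩ := hd s h1
    rcases (G s).eq_empty_or_nonempty with h | ⟨k, hk⟩
    · rw [h, Finset.sum_empty, map_zero] at k4
      linarith only [k4, hK, norm_nonneg (∑ n ∈ s, a s n • x n), mul_nonneg_of_nonpos_of_nonpos (le_of_lt (Mathlib.Tactic.Linarith.sub_neg_of_lt hK)) (Mathlib.Tactic.Linarith.sub_nonpos_of_le (norm_nonneg (∑ n ∈ s, a s n • x n)))]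
    · have := basic_coeff hn h2 (a s) (k1 hk)
      have := k3 k hk
      simp only [N]
      linarith
  obtain ⟨ν, hν1, hν2⟩ := (isCompact_Icc (a := δ / 4) (b := C)).ultrafilter_le_nhds
    ((V T' d).map N) (by
      rw [Ultrafilter.coe_map, le_principal_iff, mem_map]
      exact hT'.mono (fun s hs => ⟨hlow s hs.1, hs.2.2⟩))
  have hν : 0 < ν := lt_of_lt_of_le (by positivity) hν1.1
  have hθν : 0 < θ * ν := by positivity
  have hnear : ∀ᶠ s in (V T' d).toFilter, |N s - ν| < θ * ν :=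
    (show Tendsto N (V T' d).toFilter (𝓝 ν) from hν2).eventually (Metric.ball_mem_nhds ν hθν)
  let L : ℤ := ⌈1 / (θ * δ)⌉
  let ty : Finset ℕ → ℕ → Option (Finset.Icc (-L) L) := fun s n =>
    if h : n ∈ G s ∧ 0 < f s (x n) * a s n ∧ ⌊a s n / (θ * δ)⌋ ∈ Finset.Icc (-L) L then
      some ⟨_, h.2.2⟩ else none
  have hty : ∀ s n, ty s n ≠ none → n ∈ G s ∧ 0 < f s (x n) * a s n ∧
      ∃ h, ty s n = some ⟨⌊a s n / (θ * δ)⌋, h⟩ := by
    intro s n h
    by_cases h' : n ∈ G s ∧ 0 < f s (x n) * a s n ∧ ⌊a s n / (θ * δ)⌋ ∈ Finset.Icc (-L) L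
    · exact ⟨h'.1, h'.2.1, h'.2.2, dif_pos h'⟩
    · exact absurd (dif_neg h') h
  have hty2 : ∀ s n, n ∈ G s → 0 < f s (x n) * a s n → |a s n| ≤ 1 → ty s n ≠ none := by
    intro s n h1 h2 h3
    have h4 : ⌊a s n / (θ * δ)⌋ ∈ Finset.Icc (-L) L := by
      have k1 : a s n / (θ * δ) ≤ 1 / (θ * δ) := by gcongr; exact (abs_le.1 h3).2
      have k2 : -1 / (θ * δ) ≤ a s n / (θ * δ) := by gcongr; exact (abs_le.1 h3).1
      have k3 : 1 / (θ * δ) ≤ (L : ℝ) := Int.le_ceil _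
      rw [Finset.mem_Icc, Int.le_floor]
      refine ⟨?_, ?_⟩
      · rw [neg_div] at k2; push_cast; linarith only [k2, k3]
      · exact (Int.floor_le_ceil _).trans (Int.ceil_le_ceil k1)
    have : ty s n = some ⟨_, h4⟩ := dif_pos ⟨h1, h2, h4⟩
    rw [this]; simp
  obtain ⟨s, t, S, ⟨⟨⟨hs1, -⟩, hs2, -⟩, hs3⟩, ⟨⟨⟨ht1, -⟩, ht2, -⟩, ht3⟩, hdt, hS1, hS2, hS3, hS4⟩ :=
    exists_pair hcore ty (fun s n => f s (x n) * a s n) (fun s n => |f s (x n)|)
      (fun s n h => (hty s n h).2.1.le) (fun s n => abs_nonneg _)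
      (fun K' ε hε => small_dual hx f hf K' ε hε) T' d _ (hT'.and hnear) hθν
  obtain ⟨k1, k2, k3, k4⟩ := hd s hs1
  obtain ⟨-, l2, -, -⟩ := hd t ht1
  have hw1 : ∀ n b, |b| ≤ 1 → |f s (x n) * b| ≤ 1 := by
    intro n b hb
    rw [abs_mul]
    exact mul_le_one₀ ((hfx s _).trans (hn n).le) (abs_nonneg _) hb
  refine arith (ν := ν) (Ns := N s) (Nt := N t) (D := d.card)
    (A := ∑ n ∈ (s \ d).filter (fun n => ty s n ≠ none), f s (x n) * a s n)
    (B := ∑ n ∈ S, f s (x n) * a s n) hK hθ hν (by linarith [(abs_lt.1 hs3).1])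
    (by linarith [(abs_lt.1 ht3).2]) hs2 ht2 (k4.trans_le ?_) hS3 ?_
  · rw [map_sum]
    have hsub : (s \ d).filter (fun n => ty s n ≠ none) ⊆ G s :=
      fun n hn => (hty s n (Finset.mem_filter.1 hn).2).1
    calc ∑ n ∈ G s, f s (a s n • x n)
        ≤ ∑ n ∈ G s, ((if n ∈ d then (1 : ℝ) else 0) +
          if n ∈ (s \ d).filter (fun n => ty s n ≠ none) then f s (x n) * a s n else 0) := by
          refine Finset.sum_le_sum (fun n hn => ?_)
          rw [map_smul, smul_eq_mul, mul_comm]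
          by_cases h1 : n ∈ d
          · rw [if_pos h1, if_neg (by simp [h1]), add_zero]
            exact (le_abs_self _).trans (hw1 n _ (k2 n (k1 hn)))
          · rw [if_neg h1, zero_add]
            split_ifs with h2
            · exact le_rfl
            · by_contra h3
              exact h2 (Finset.mem_filter.2 ⟨Finset.mem_sdiff.2 ⟨k1 hn, h1⟩,
                hty2 s n hn (not_le.1 h3) (k2 n (k1 hn))⟩)
      _ ≤ _ := by
          rw [Finset.sum_add_distrib, Finset.sum_ite_mem, Finset.sum_ite_mem,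
            Finset.inter_eq_right.2 hsub, Finset.sum_const, nsmul_eq_mul, mul_one]
          gcongr
          exact Finset.inter_subset_right
  · have hsub : d ∪ S ⊆ t := Finset.union_subset hdt (hS1.trans Finset.sdiff_subset)
    have hdisj : Disjoint d S := Finset.disjoint_left.2
      (fun n h1 h2 => (Finset.mem_sdiff.1 (hS1 h2)).2 h1)
    have e0 : f s (∑ n ∈ t, a t n • x n) = ∑ n ∈ t \ (d ∪ S), f s (x n) * a t n +
        (∑ n ∈ d, f s (x n) * a t n + ∑ n ∈ S, f s (x n) * a t n) := by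
      rw [← Finset.sum_union hdisj, Finset.sum_sdiff hsub, map_sum]
      exact Finset.sum_congr rfl (fun n _ => by rw [map_smul, smul_eq_mul, mul_comm])
    have e1 : -(θ * ν) ≤ ∑ n ∈ t \ (d ∪ S), f s (x n) * a t n := by
      refine le_trans (neg_le_neg hS4) ?_
      rw [← Finset.sum_neg_distrib]
      refine Finset.sum_le_sum (fun n hn => le_trans ?_ (neg_abs_le _))
      rw [abs_mul]
      exact neg_le_neg (mul_le_of_le_one_right (abs_nonneg _) (l2 n (Finset.mem_sdiff.1 hn).1))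
    have e2 : -(d.card : ℝ) ≤ ∑ n ∈ d, f s (x n) * a t n := by
      have := Finset.card_nsmul_le_sum d (fun n => f s (x n) * a t n) (-1)
        (fun n hn => (abs_le.1 (hw1 n _ (l2 n (hdt hn)))).1)
      simpa using this
    have e3 : (1 - θ) * ∑ n ∈ S, f s (x n) * a s n ≤ ∑ n ∈ S, f s (x n) * a t n := by
      rw [Finset.mul_sum]
      refine Finset.sum_le_sum (fun n hn => ?_)
      obtain ⟨m1, m2⟩ := hS2 n hn
      obtain ⟨m3, m4, m5, m6⟩ := hty s n m2
      obtain ⟨-, -, m7, m8⟩ := hty t n (m1 ▸ m2)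
      rw [m6, m8] at m1
      have m9 : |a s n - a t n| ≤ θ * δ := close_of_floor hη (by simpa using m1)
      have m10 : |f s (x n) * (a s n - a t n)| ≤ θ * (f s (x n) * a s n) := by
        rw [← abs_of_pos m4, abs_mul, abs_mul, mul_left_comm]
        refine mul_le_mul_of_nonneg_left (m9.trans ?_) (abs_nonneg _)
        exact mul_le_mul_of_nonneg_left (k3 n m3) hθ0.le
      have := le_abs_self (f s (x n) * (a s n - a t n))
      linarith only [m10, this]
    have e4 : f s (∑ n ∈ t, a t n • x n) ≤ N t := (le_abs_self _).trans (hfx s _)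
    linarith only [e0, e1, e2, e3, e4]

theorem near_unconditional (hcore : CoreStatement) {x : ℕ → X} (hn : ∀ n, ‖x n‖ = 1)
    (hx : ∀ f : X →L[ℝ] ℝ, Tendsto (fun n => f (x n)) atTop (𝓝 0)) {δ K : ℝ} (hδ : 0 < δ)
    (hK : 2 < K) : ∃ φ : ℕ → ℕ, StrictMono φ ∧
      (∀ (a : ℕ → ℝ) (m k : ℕ), m ≤ k →
        ‖∑ i ∈ Finset.range m, a i • x (φ i)‖ ≤ K * ‖∑ i ∈ Finset.range k, a i • x (φ i)‖) ∧
      ∀ (k : ℕ) (a : ℕ → ℝ), (∀ i ≤ k, |a i| ≤ 1) → ∀ G : Finset ℕ,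
        (∀ i ∈ G, i ≤ k ∧ δ ≤ |a i|) →
          ‖∑ i ∈ G, a i • x (φ i)‖ ≤ K * ‖∑ i ∈ Finset.range (k + 1), a i • x (φ i)‖ := by
  obtain ⟨φ, hφ, hI⟩ := exists_path (fun u => ¬ Acc (BadSet x δ K) u ∧ Basic x u)
    ⟨not_acc hcore hn hx hδ hK, basic_empty x⟩
    (fun u hu => (rej_step hu.1).and (basic_step hn hx u hu.2))
  have hsum : ∀ (a : ℕ → ℝ) (G : Finset ℕ),
      ∑ n ∈ G.image φ, Function.extend φ a 0 n • x n = ∑ i ∈ G, a i • x (φ i) := by
    intro a G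
    rw [Finset.sum_image (fun i _ j _ h => hφ.injective h)]
    exact Finset.sum_congr rfl (fun i _ => by rw [hφ.injective.extend_apply])
  refine ⟨φ, hφ, fun a m k hmk => ?_, fun k a ha G hG => ?_⟩
  · obtain ⟨c, hc1, hc2, hc⟩ := (hI k).2
    have h1 := hc (Function.extend φ a 0) (φ m)
    have h2 : ((Finset.range k).image φ).filter (· < φ m) = (Finset.range m).image φ := by
      ext n
      simp only [Finset.mem_filter, Finset.mem_image, Finset.mem_range]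
      constructor
      · rintro ⟨⟨i, -, rfl⟩, h⟩
        exact ⟨i, hφ.lt_iff_lt.1 h, rfl⟩
      · rintro ⟨i, hi, rfl⟩
        exact ⟨⟨i, hi.trans_le hmk, rfl⟩, hφ hi⟩
    rw [h2, hsum, hsum] at h1
    exact h1.trans (mul_le_mul_of_nonneg_right (by linarith only [hK, hc2]) (norm_nonneg _))
  · by_contra hcon
    refine (hI (k + 1)).1 (Acc.base _ ⟨Function.extend φ a 0, G.image φ, ?_, ?_, ?_, ?_⟩)
    · exact Finset.image_subset_image
        (fun i hi => Finset.mem_range.2 (Nat.lt_succ_of_le (hG i hi).1))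
    · intro n hn
      obtain ⟨i, hi, rfl⟩ := Finset.mem_image.1 hn
      rw [hφ.injective.extend_apply]
      exact ha i (Nat.lt_succ_iff.1 (Finset.mem_range.1 hi))
    · intro n hn
      obtain ⟨i, hi, rfl⟩ := Finset.mem_image.1 hn
      rw [hφ.injective.extend_apply]
      exact (hG i hi).2
    · rw [hsum, hsum]
      exact not_le.1 hcon

end Pool.Agent.Work.MP_4833ba_an
end
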