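import Mathlib

-- merged part: Pool.Agent.Work.MP_4833ba_an.Tree
section
/-!
# Ultrafilter trees with finitely many colours

A tree describes a well-founded process: at a node one element `y` is chosen, generically with
respect to the ultrafilter `U`, the step carries an optional colour, and the process goes on in
the child `ch y`.
-/

namespace Pool.Agent.Work.MP_4833ba_an

open Filter

/-- the ultrafilter used for generic choices -/
noncomputable def U : Ultrafilter ℕ := hyperfilter ℕ

/-- well-founded trees with `ℕ` children at each node and an optional colour -/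
inductive Tr (κ : Type) : Type
  | nil : Tr κ
  | node (c : Option κ) (ch : ℕ → Tr κ) : Tr κ

/-- change of colours; a colour may be erased -/
def Tr.map {κ κ' : Type} (m : κ → Option κ') : Tr κ → Tr κ'
  | Tr.nil => Tr.nil
  | Tr.node c ch => Tr.node (c.bind m) (fun y => Tr.map m (ch y))

/-- forget the marks -/
def forget {κ : Type} (a : Tr (κ × Bool)) : Tr κ := a.map (fun p => some p.1)

/-- keep only the colours that carry the mark `b` -/
def keep {κ : Type} (b : Bool) (a : Tr (κ × Bool)) : Tr κ :=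
  a.map (fun p => if p.2 = b then some p.1 else none)

/-- `Sim r' r`: the two processes can be run side by side so that every coloured step of `r'`
is made jointly with a step of `r` of the same colour, with the same chosen element. -/
inductive Sim {κ : Type} : Tr κ → Tr κ → Prop
  | nil (r : Tr κ) : Sim Tr.nil r
  | left (ch' : ℕ → Tr κ) (r : Tr κ) (S : Set ℕ) (hS : S ∈ U)
      (h : ∀ z ∈ S, Sim (ch' z) r) : Sim (Tr.node none ch') r
  | right (r' : Tr κ) (d : Option κ) (ch : ℕ → Tr κ) (S : Set ℕ) (hS : S ∈ U)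
      (h : ∀ z ∈ S, Sim r' (ch z)) : Sim r' (Tr.node d ch)
  | both (c : κ) (ch' ch : ℕ → Tr κ) (S : Set ℕ) (hS : S ∈ U)
      (h : ∀ z ∈ S, Sim (ch' z) (ch z)) : Sim (Tr.node (some c) ch') (Tr.node (some c) ch)

/-- the combinatorial core: every tree with finitely many colours has a marking such that both
marked parts are simulated by the tree itself -/
def CoreStatement : Prop :=
  ∀ (κ : Type) [Finite κ] (r : Tr κ), ∃ a : Tr (κ × Bool),
    forget a = r ∧ Sim (keep false a) r ∧ Sim (keep true a) r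

end Pool.Agent.Work.MP_4833ba_an
end

-- merged part: Pool.Agent.Work.MP_4833ba_an.MBA
section
/-!
# Locally constant arrays: a Ramsey theorem and the minimal bad array lemma
-/

namespace Pool.Agent.Work.MP_4833ba_an

open Filter

/-- strictly increasing sequences with values in `A` -/
def Dom (A : Set ℕ) (X : ℕ → ℕ) : Prop := StrictMono X ∧ ∀ i, X i ∈ A

/-- `f` is constant on the sequences that agree with `X` up to index `n` -/
def ConstOn {Q : Type} (A : Set ℕ) (f : (ℕ → ℕ) → Q) (X : ℕ → ℕ) (n : ℕ) : Prop :=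
  ∀ Y, Dom A Y → (∀ i ≤ n, Y i = X i) → f Y = f X

/-- locally constant arrays -/
def LC {Q : Type} (A : Set ℕ) (f : (ℕ → ℕ) → Q) : Prop := ∀ X, Dom A X → ∃ n, ConstOn A f X n

/-- the shift -/
def sh (X : ℕ → ℕ) : ℕ → ℕ := fun i => X (i + 1)

lemma Dom.mono {A B : Set ℕ} (h : A ⊆ B) {X : ℕ → ℕ} (hX : Dom A X) : Dom B X :=
  ⟨hX.1, fun i => h (hX.2 i)⟩

lemma Dom.sh {A : Set ℕ} {X : ℕ → ℕ} (hX : Dom A X) : Dom A (sh X) :=
  ⟨fun _ _ h => hX.1 (Nat.succ_lt_succ h), fun i => hX.2 (i + 1)⟩

lemma ConstOn.mono {Q : Type} {A : Set ℕ} {f : (ℕ → ℕ) → Q} {X : ℕ → ℕ} {n m : ℕ}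
    (h : ConstOn A f X n) (hnm : n ≤ m) : ConstOn A f X m :=
  fun Y hY hYX => h Y hY (fun i hi => hYX i (hi.trans hnm))

lemma LC.mono {Q : Type} {A B : Set ℕ} {f : (ℕ → ℕ) → Q} (h : LC B f) (hAB : A ⊆ B) : LC A f :=
  fun X hX => by
    obtain ⟨n, hn⟩ := h X (hX.mono hAB)
    exact ⟨n, fun Y hY hYX => hn Y (hY.mono hAB) hYX⟩

lemma exists_extend {A : Set ℕ} (hA : A.Infinite) (X : ℕ → ℕ) (n : ℕ)
    (hm : ∀ i j, i < j → j < n → X i < X j) (hX : ∀ i < n, X i ∈ A) :
    ∃ Y, Dom A Y ∧ ∀ i < n, Y i = X i := by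
  classical
  set M := (Finset.range n).sup X + 1 with hM
  have hsm : StrictMono (Nat.nth (· ∈ A)) := Nat.nth_strictMono hA
  refine ⟨fun i => if i < n then X i else Nat.nth (· ∈ A) (i + M), ⟨?_, ?_⟩, ?_⟩
  · intro i j hij
    by_cases hj : j < n
    · simp only [if_pos hj, if_pos (hij.trans hj)]
      exact hm i j hij hj
    · by_cases hi : i < n
      · simp only [if_neg hj, if_pos hi]
        have h1 : X i ≤ (Finset.range n).sup X := Finset.le_sup (f := X) (Finset.mem_range.2 hi)
        have h2 : j + M ≤ Nat.nth (· ∈ A) (j + M) := hsm.id_le _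
        omega
      · simp only [if_neg hj, if_neg hi]
        exact hsm (by omega)
  · intro i
    by_cases hi : i < n
    · simp only [if_pos hi]; exact hX i hi
    · simp only [if_neg hi]; exact Nat.nth_mem_of_infinite hA _
  · intro i hi
    simp only [if_pos hi]

/-- the first `n` values of `X`, last one first -/
def pre (X : ℕ → ℕ) : ℕ → List ℕ
  | 0 => []
  | n + 1 => X n :: pre X n

lemma pre_length (X : ℕ → ℕ) (n : ℕ) : (pre X n).length = n := by
  induction n with
  | zero => rfl
  | succ n ih => simp [pre, ih]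

lemma pre_eq_iff (X Y : ℕ → ℕ) (n : ℕ) : pre Y n = pre X n ↔ ∀ i < n, Y i = X i := by
  induction n with
  | zero => simp [pre]
  | succ n ih =>
    simp only [pre, List.cons.injEq, ih]
    constructor
    · rintro ⟨h1, h2⟩ i hi
      rcases Nat.lt_succ_iff_lt_or_eq.1 hi with h | h
      · exact h2 i h
      · rw [h]; exact h1
    · intro h
      exact ⟨h n (Nat.lt_succ_self n), fun i hi => h i (Nat.lt_succ_of_lt hi)⟩

lemma mem_pre (X : ℕ → ℕ) (n : ℕ) (x : ℕ) : x ∈ pre X n ↔ ∃ i < n, X i = x := by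
  induction n with
  | zero => simp [pre]
  | succ n ih =>
    simp only [pre, List.mem_cons, ih]
    constructor
    · rintro (h | ⟨i, hi, h⟩)
      · exact ⟨n, Nat.lt_succ_self n, h.symm⟩
      · exact ⟨i, Nat.lt_succ_of_lt hi, h⟩
    · rintro ⟨i, hi, h⟩
      rcases Nat.lt_succ_iff_lt_or_eq.1 hi with h' | h'
      · exact Or.inr ⟨i, h', h⟩
      · rw [h'] at h; exact Or.inl h.symm

lemma pre_sublist (X : ℕ → ℕ) {n m : ℕ} (h : n ≤ m) : (pre X n).Sublist (pre X m) := by
  induction m, h using Nat.le_induction with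
  | base => exact List.Sublist.refl _
  | succ m _ ih => exact List.Sublist.cons _ ih

lemma pre_comp_sublist (b : ℕ → ℕ) (φ : ℕ → ℕ) (hφ : StrictMono φ) (m : ℕ) :
    ∀ n, (∀ i < m, φ i < n) → (pre (fun i => b (φ i)) m).Sublist (pre b n) := by
  induction m with
  | zero => intro n _; exact List.nil_sublist _
  | succ m ih =>
    intro n hn
    have h1 : φ m + 1 ≤ n := hn m (Nat.lt_succ_self m)
    refine List.Sublist.trans ?_ (pre_sublist b h1)
    exact List.Sublist.cons_cons _ (ih (φ m) (fun i hi => hφ hi))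

/-- fusion: a property of finite lists that passes to generic one-step extensions holds for all
finite subsequences of one strictly increasing sequence -/
lemma fusion (V : Filter ℕ) [V.NeBot] (hV : V ≤ atTop) (P : List ℕ → Prop) (h0 : P [])
    (hs : ∀ s, P s → ∀ᶠ z in V, P (z :: s)) (A : Set ℕ) (hA : A ∈ V) :
    ∃ b : ℕ → ℕ, StrictMono b ∧ (∀ i, b i ∈ A) ∧ ∀ n s, s.Sublist (pre b n) → P s := by
  have key : ∀ l : {l : List ℕ // ∀ s : List ℕ, s.Sublist l → P s}, ∃ z, z ∈ A ∧
      (∀ x ∈ l.1, x < z) ∧ ∀ s : List ℕ, s.Sublist (z :: l.1) → P s := by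
    rintro ⟨l, hl⟩
    have h1 : ∀ᶠ z in V, ∀ s ∈ l.sublists.toFinset, P (z :: s) := by
      rw [Filter.eventually_all_finset]
      intro s hs'
      exact hs s (hl s (List.mem_sublists.1 (List.mem_toFinset.1 hs')))
    have h2 : ∀ᶠ z in V, ∀ x ∈ l.toFinset, x < z := by
      rw [Filter.eventually_all_finset]
      intro x _
      exact hV (eventually_gt_atTop x)
    obtain ⟨z, hz1, hz2, hz3⟩ := (h1.and (h2.and hA)).exists
    refine ⟨z, hz3, fun x hx => hz2 x (List.mem_toFinset.2 hx), fun s hs' => ?_⟩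
    rcases List.sublist_cons_iff.1 hs' with h | ⟨r, rfl, h⟩
    · exact hl s h
    · exact hz1 r (List.mem_toFinset.2 (List.mem_sublists.2 h))
  choose nxt hA' hlt hP using key
  let sq : ℕ → {l : List ℕ // ∀ s : List ℕ, s.Sublist l → P s} := fun n =>
    Nat.rec ⟨[], fun s hs' => by rw [List.sublist_nil.1 hs']; exact h0⟩
      (fun _ l => ⟨nxt l :: l.1, hP l⟩) n
  have hsq : ∀ n, pre (fun n => nxt (sq n)) n = (sq n).1 := by
    intro n
    induction n with
    | zero => rfl
    | succ n ih => simp only [pre, ih]; rfl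
  refine ⟨fun n => nxt (sq n), ?_, fun i => hA' _, fun n s hs' => ?_⟩
  · intro i j hij
    apply hlt (sq j)
    rw [← hsq, mem_pre]
    exact ⟨i, hij, rfl⟩
  · rw [hsq] at hs'
    exact (sq n).2 s hs'

/-- acceptance of a finite list for the colour `k` -/
inductive Accept {C : Type} (V : Filter ℕ) (A : Set ℕ) (c : (ℕ → ℕ) → C) (k : C) :
    List ℕ → Prop
  | base (s : List ℕ) (h : ∀ Y, Dom A Y → pre Y s.length = s → c Y = k) : Accept V A c k s
  | step (s : List ℕ) (S : Set ℕ) (hS : S ∈ V) (h : ∀ z ∈ S, Accept V A c k (z :: s)) :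
      Accept V A c k s

lemma Accept.next {C : Type} {V : Filter ℕ} {A : Set ℕ} {c : (ℕ → ℕ) → C} {k : C} {s : List ℕ}
    (h : Accept V A c k s) : ∀ᶠ z in V, Accept V A c k (z :: s) := by
  cases h with
  | base _ h =>
    refine Eventually.of_forall (fun z => Accept.base _ (fun Y hY hp => h Y hY ?_))
    simp only [List.length_cons, pre, List.cons.injEq] at hp
    exact hp.2
  | step _ S hS h => exact Filter.mem_of_superset hS h

lemma Accept.unique {C : Type} {V : Filter ℕ} [V.NeBot] (hV : V ≤ atTop) {A : Set ℕ}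
    (hA : A.Infinite) (hAV : A ∈ V) {c : (ℕ → ℕ) → C} {k k' : C} {s : List ℕ}
    (h : Accept V A c k s) : ∀ X, Dom A X → pre X s.length = s →
      (∀ Y, Dom A Y → pre Y s.length = s → c Y = k') → k = k' := by
  induction h with
  | base s h => intro X hX hp h'; rw [← h X hX hp, h' X hX hp]
  | step s S hS _ ih =>
    intro X hX hp h'
    have h2 : ∀ᶠ z in V, X s.length < z := hV (eventually_gt_atTop _)
    obtain ⟨z, hz1, hz2, hz3⟩ := (h2.and ((show ∀ᶠ z in V, z ∈ S from hS).and hAV)).exists
    obtain ⟨Y, hY, hYX⟩ := exists_extend hA (fun i => if i < s.length then X i else z)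
      (s.length + 1) (by
        intro i j hij hj
        have hi : i < s.length := by omega
        by_cases hj' : j < s.length
        · simp only [if_pos hi, if_pos hj']; exact hX.1 hij
        · simp only [if_pos hi, if_neg hj']; exact (hX.1 hi).trans hz1) (by
        intro i _
        by_cases hi : i < s.length
        · simp only [if_pos hi]; exact hX.2 i
        · simp only [if_neg hi]; exact hz3)
    apply ih z hz2 Y hY
    · simp only [List.length_cons, pre, List.cons.injEq]
      refine ⟨by rw [hYX _ (Nat.lt_succ_self _)]; simp, ?_⟩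
      refine Eq.trans ?_ hp
      rw [pre_eq_iff]
      intro i hi
      rw [hYX i (Nat.lt_succ_of_lt hi), if_pos hi]
    · intro Z hZ hp'
      simp only [List.length_cons, pre, List.cons.injEq] at hp'
      exact h' Z hZ hp'.2

/-- Ramsey theorem for locally constant finite colourings -/
theorem ramsey {C : Type} [Finite C] {A : Set ℕ} (hA : A.Infinite) (c : (ℕ → ℕ) → C)
    (hc : LC A c) : ∃ B ⊆ A, B.Infinite ∧ ∃ k, ∀ X, Dom B X → c X = k := by
  have hne : (atTop ⊓ 𝓟 A : Filter ℕ).NeBot :=
    Filter.frequently_mem_iff_neBot.1 (Nat.frequently_atTop_iff_infinite.2 hA)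
  let V : Ultrafilter ℕ := Ultrafilter.of (atTop ⊓ 𝓟 A)
  have hV : (V : Filter ℕ) ≤ atTop := (Ultrafilter.of_le _).trans inf_le_left
  have hAV : A ∈ (V : Filter ℕ) := le_principal_iff.1 ((Ultrafilter.of_le _).trans inf_le_right)
  have hloc : ∀ X, Dom A X → ∃ n, ∀ Y, Dom A Y → pre Y (pre X n).length = pre X n → c Y = c X := by
    intro X hX
    obtain ⟨n, hn⟩ := hc X hX
    refine ⟨n + 1, fun Y hY hp => hn Y hY (fun i hi => ?_)⟩
    rw [pre_length, pre_eq_iff] at hp
    exact hp i (Nat.lt_succ_of_le hi)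
  have h0 : ∃ k, Accept V A c k [] := by
    by_contra hno
    push Not at hno
    obtain ⟨b, hb, hbA, hP⟩ := fusion V hV (fun s => ∀ k, ¬ Accept V A c k s) hno (by
      intro s hs
      rw [Filter.eventually_all]
      intro k
      rw [Ultrafilter.eventually_not]
      intro h
      exact hs k (Accept.step s _ h (fun z hz => hz))) A hAV
    obtain ⟨n, hn⟩ := hloc b ⟨hb, hbA⟩
    exact hP n _ (List.Sublist.refl _) (c b) (Accept.base _ hn)
  obtain ⟨k, hk⟩ := h0
  obtain ⟨b, hb, hbA, hP⟩ := fusion V hV (Accept V A c k) hk (fun s hs => hs.next) A hAV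
  refine ⟨Set.range b, by rintro _ ⟨i, rfl⟩; exact hbA i,
    Set.infinite_range_of_injective hb.injective, k, fun X hX => ?_⟩
  have hXA : Dom A X := hX.mono (by rintro _ ⟨i, rfl⟩; exact hbA i)
  choose φ hφ using hX.2
  have hφm : StrictMono φ := fun i j hij => by
    apply hb.lt_iff_lt.1
    rw [hφ, hφ]; exact hX.1 hij
  have hXe : X = fun i => b (φ i) := funext (fun i => (hφ i).symm)
  obtain ⟨n, hn⟩ := hloc X hXA
  have hacc : Accept V A c k (pre X n) := by
    apply hP (φ n)
    rw [hXe]
    exact pre_comp_sublist b φ hφm n _ (fun i hi => hφm hi)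
  exact (hacc.unique hV hA hAV X hXA (by rw [pre_length]) hn).symm

section MBA

variable {Q : Type} (le lt : Q → Q → Prop)

/-- bad locally constant arrays -/
structure Bad (A : Set ℕ) (f : (ℕ → ℕ) → Q) : Prop where
  inf : A.Infinite
  lc : LC A f
  bad : ∀ X, Dom A X → ¬ le (f X) (f (sh X))

/-- a bad array strictly below another array -/
structure Cand (A : Set ℕ) (f : (ℕ → ℕ) → Q) (A' : Set ℕ) (f' : (ℕ → ℕ) → Q) : Prop where
  bad : Bad le A' f'
  sub : A' ⊆ A
  lt : ∀ X, Dom A' X → lt (f' X) (f X)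

/-- modulus of local constancy -/
noncomputable def ell (A : Set ℕ) (f : (ℕ → ℕ) → Q) (X : ℕ → ℕ) : ℕ := sInf {n | ConstOn A f X n}

lemma ell_spec {A : Set ℕ} {f : (ℕ → ℕ) → Q} (h : LC A f) {X : ℕ → ℕ} (hX : Dom A X) :
    ConstOn A f X (ell A f X) := Nat.sInf_mem (h X hX)

lemma ell_le {A : Set ℕ} {f : (ℕ → ℕ) → Q} {X : ℕ → ℕ} {n : ℕ} (h : ConstOn A f X n) :
    ell A f X ≤ n := Nat.sInf_le h

lemma ell_agree {A : Set ℕ} {f : (ℕ → ℕ) → Q} (h : LC A f) {X Y : ℕ → ℕ} (hX : Dom A X)
    (hY : Dom A Y) (hYX : ∀ i ≤ ell A f X, Y i = X i) : ell A f Y = ell A f X := by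
  have e : f Y = f X := ell_spec h hX Y hY hYX
  have h1 : ell A f Y ≤ ell A f X := ell_le (fun Z hZ hZY => by
    rw [e]; exact ell_spec h hX Z hZ (fun i hi => (hZY i hi).trans (hYX i hi)))
  refine le_antisymm h1 (ell_le (fun Z hZ hZX => ?_))
  rw [← e]
  exact ell_spec h hY Z hZ (fun i hi => (hZX i hi).trans (hYX i (hi.trans h1)).symm)

variable {le lt}

lemma mba_step (htr : ∀ a b c, le a b → le b c → le a c) (hsub : ∀ a b, lt a b → le a b)
    {A : Set ℕ} {f : (ℕ → ℕ) → Q} (h : Bad le A f) (H : ∃ A' f', Cand le lt A f A' f') :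
    ∃ (A₁ : Set ℕ) (f₁ : (ℕ → ℕ) → Q) (X : ℕ → ℕ), Bad le A₁ f₁ ∧ A₁ ⊆ A ∧ Dom A₁ X ∧
      (∀ x ∈ A, x ≤ X (ell A f X) → x ∈ A₁) ∧
      (∀ A'' f'', Cand le lt A f A'' f'' → ∀ Y, Dom A'' Y → X (ell A f X) ≤ Y (ell A f Y)) ∧
      (∀ Y, Dom A₁ Y → (∀ i ≤ ell A f X, Y i = X i) → lt (f₁ Y) (f Y)) ∧
      (∀ Y, Dom A₁ Y → lt (f₁ Y) (f Y) ∨
        ∀ Z, Dom A₁ Z → (∀ i ≤ ell A f Y, Z i = Y i) → f₁ Z = f Z) := by
  classical
  have hex : ∃ n, ∃ A' f' X, Cand le lt A f A' f' ∧ Dom A' X ∧ X (ell A f X) = n := by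
    obtain ⟨A', f', hc⟩ := H
    obtain ⟨X, hX, -⟩ := exists_extend hc.bad.inf id 0 (by simp) (by simp)
    exact ⟨_, A', f', X, hc, hX, rfl⟩
  obtain ⟨A', f', X, hc, hX, hn⟩ := Nat.find_spec hex
  have hmin : ∀ A'' f'', Cand le lt A f A'' f'' → ∀ Y, Dom A'' Y →
      X (ell A f X) ≤ Y (ell A f Y) := by
    intro A'' f'' hc' Y hY
    rw [hn]
    exact Nat.find_min' hex ⟨A'', f'', Y, hc', hY, rfl⟩
  set n := X (ell A f X) with hn'
  set A₁ : Set ℕ := A' ∪ {x | x ∈ A ∧ x ≤ n} with hA₁
  have hA₁A : A₁ ⊆ A := by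
    rintro x (hx | hx)
    · exact hc.sub hx
    · exact hx.1
  have hA'A₁ : A' ⊆ A₁ := Set.subset_union_left
  have dich : ∀ Y, Dom A₁ Y → (∀ i ≤ ell A f Y, Y i ∈ A') → Dom A' Y := by
    intro Y hY hp
    obtain ⟨Y', hY', hYY⟩ := exists_extend hc.bad.inf Y (ell A f Y + 1)
      (fun i j hij _ => hY.1 hij) (fun i hi => hp i (Nat.lt_succ_iff.1 hi))
    have e : ell A f Y' = ell A f Y := ell_agree h.lc (hY.mono hA₁A) (hY'.mono hc.sub)
      (fun i hi => hYY i (Nat.lt_succ_of_le hi))
    have h1 := hmin A' f' hc Y' hY'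
    rw [e, hYY _ (Nat.lt_succ_self _)] at h1
    refine ⟨hY.1, fun i => ?_⟩
    by_cases hi : i ≤ ell A f Y
    · exact hp i hi
    · have h2 : Y (ell A f Y) < Y i := hY.1 (not_le.1 hi)
      rcases hY.2 i with h3 | h3
      · exact h3
      · exact absurd h3.2 (by omega)
  have dich2 : ∀ Y Z, Dom A₁ Y → Dom A₁ Z → (∀ i ≤ ell A f Y, Z i = Y i) →
      (Dom A' Z ↔ Dom A' Y) := by
    intro Y Z hY hZ hZY
    have e : ell A f Z = ell A f Y := ell_agree h.lc (hY.mono hA₁A) (hZ.mono hA₁A) hZY
    constructor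
    · intro h'
      exact dich Y hY (fun i hi => by rw [← hZY i hi]; exact h'.2 i)
    · intro h'
      exact dich Z hZ (fun i hi => by rw [hZY i (e ▸ hi)]; exact h'.2 i)
  refine ⟨A₁, fun Y => if Dom A' Y then f' Y else f Y, X, ⟨hc.bad.inf.mono hA'A₁, ?_, ?_⟩, hA₁A,
    hX.mono hA'A₁, fun x hx hxn => Or.inr ⟨hx, hxn⟩, hmin, ?_, ?_⟩
  · intro Y hY
    by_cases hY' : Dom A' Y
    · obtain ⟨m, hm⟩ := hc.bad.lc Y hY'
      refine ⟨max m (ell A f Y), fun Z hZ hZY => ?_⟩
      have hZ' : Dom A' Z :=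
        (dich2 Y Z hY hZ (fun i hi => hZY i (hi.trans (le_max_right _ _)))).2 hY'
      simp only [if_pos hY', if_pos hZ']
      exact hm Z hZ' (fun i hi => hZY i (hi.trans (le_max_left _ _)))
    · refine ⟨ell A f Y, fun Z hZ hZY => ?_⟩
      have hZ' : ¬ Dom A' Z := fun h' => hY' ((dich2 Y Z hY hZ hZY).1 h')
      simp only [if_neg hY', if_neg hZ']
      exact ell_spec h.lc (hY.mono hA₁A) Z (hZ.mono hA₁A) hZY
  · intro Y hY
    by_cases hY' : Dom A' Y
    · simp only [if_pos hY', if_pos hY'.sh]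
      exact hc.bad.bad Y hY'
    · by_cases hs : Dom A' (sh Y)
      · simp only [if_neg hY', if_pos hs]
        intro hle
        exact h.bad Y (hY.mono hA₁A) (htr _ _ _ hle (hsub _ _ (hc.lt _ hs)))
      · simp only [if_neg hY', if_neg hs]
        exact h.bad Y (hY.mono hA₁A)
  · intro Y hY hYX
    have hY' : Dom A' Y := (dich2 X Y (hX.mono hA'A₁) hY hYX).2 hX
    simp only [if_pos hY']
    exact hc.lt Y hY'
  · intro Y hY
    by_cases hY' : Dom A' Y
    · left
      simp only [if_pos hY']
      exact hc.lt Y hY'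
    · right
      intro Z hZ hZY
      have hZ' : ¬ Dom A' Z := fun h' => hY' ((dich2 Y Z hY hZ hZY).1 h')
      simp only [if_neg hZ']

/-- minimal bad array lemma: if every bad array has a bad array strictly below it, there is no
bad array -/
theorem no_bad_array (htr : ∀ a b c, le a b → le b c → le a c) (hsub : ∀ a b, lt a b → le a b)
    (hwf : WellFounded lt) (hlt : ∀ a b c, lt a b → lt b c → lt a c)
    (H : ∀ A f, Bad le A f → ∃ A' f', Cand le lt A f A' f') (A₀ : Set ℕ) (f₀ : (ℕ → ℕ) → Q) :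
    ¬ Bad le A₀ f₀ := by
  intro h₀
  have hirr : ∀ a, ¬ lt a a := fun a => hwf.irrefl.irrefl a
  have key := fun (p : {p : Set ℕ × ((ℕ → ℕ) → Q) // Bad le p.1 p.2}) =>
    mba_step htr hsub p.2 (H _ _ p.2)
  choose nA nf nX hbad hsubA hdom hkeep hmin hdrop hdich using key
  let st : ℕ → {p : Set ℕ × ((ℕ → ℕ) → Q) // Bad le p.1 p.2} := fun n =>
    Nat.rec ⟨(A₀, f₀), h₀⟩ (fun _ p => ⟨(nA p, nf p), hbad p⟩) n
  let A : ℕ → Set ℕ := fun i => (st i).1.1
  let f : ℕ → (ℕ → ℕ) → Q := fun i => (st i).1.2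
  let X : ℕ → ℕ → ℕ := fun i => nX (st i)
  have hB : ∀ i, Bad le (A i) (f i) := fun i => (st i).2
  have h1 : ∀ i, A (i + 1) ⊆ A i := fun i => hsubA (st i)
  have h2 : ∀ i, Dom (A (i + 1)) (X i) := fun i => hdom (st i)
  have h3 : ∀ i, ∀ x ∈ A i, x ≤ X i (ell (A i) (f i) (X i)) → x ∈ A (i + 1) :=
    fun i => hkeep (st i)
  have h4 : ∀ i A'' f'', Cand le lt (A i) (f i) A'' f'' → ∀ Y, Dom A'' Y →
      X i (ell (A i) (f i) (X i)) ≤ Y (ell (A i) (f i) Y) := fun i => hmin (st i)
  have h5 : ∀ i Y, Dom (A (i + 1)) Y → (∀ k ≤ ell (A i) (f i) (X i), Y k = X i k) →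
      lt (f (i + 1) Y) (f i Y) := fun i => hdrop (st i)
  have h6 : ∀ i Y, Dom (A (i + 1)) Y → lt (f (i + 1) Y) (f i Y) ∨
      ∀ Z, Dom (A (i + 1)) Z → (∀ k ≤ ell (A i) (f i) Y, Z k = Y k) → f (i + 1) Z = f i Z :=
    fun i => hdich (st i)
  clear_value A f X
  clear_value st
  clear hbad hsubA hdom hkeep hmin hdrop hdich
  set n : ℕ → ℕ := fun i => X i (ell (A i) (f i) (X i)) with hn
  have hanti : ∀ i j, i ≤ j → A j ⊆ A i := fun i j hij => antitone_nat_of_succ_le h1 hij
  have hdec : ∀ i j, i ≤ j → ∀ Y, Dom (A j) Y → f j Y = f i Y ∨ lt (f j Y) (f i Y) := by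
    intro i j hij
    induction j, hij using Nat.le_induction with
    | base => intro Y _; exact Or.inl rfl
    | succ j hij ih =>
      intro Y hY
      rcases h6 j Y hY with h | h
      · rcases ih Y (hY.mono (h1 j)) with h' | h'
        · right; rw [← h']; exact h
        · right; exact hlt _ _ _ h h'
      · rw [h Y hY (fun _ _ => rfl)]
        exact ih Y (hY.mono (h1 j))
  have hfin : ∀ N, {i | n i ≤ N}.Finite := by
    intro N
    by_contra hinf
    have hinf' : {i | n i ≤ N}.Infinite := hinf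
    let code : ℕ → Fin (N + 1) × (Fin (N + 1) → Fin (N + 1)) := fun i =>
      (⟨min (ell (A i) (f i) (X i)) N, by omega⟩, fun k => ⟨min (X i k) N, by omega⟩)
    have : Infinite {i | n i ≤ N} := hinf'.to_subtype
    obtain ⟨cd, hcd⟩ := Finite.exists_infinite_fiber (fun i : {i | n i ≤ N} => code i.1)
    have hI : {i | n i ≤ N ∧ code i = cd}.Infinite := by
      have h' := Set.infinite_coe_iff.1 hcd
      have h'' := h'.image (f := Subtype.val) Subtype.val_injective.injOn
      refine h''.mono ?_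
      rintro _ ⟨i, hi, rfl⟩
      exact ⟨i.2, hi⟩
    obtain ⟨_, ⟨i, hi, rfl⟩, hmin⟩ := hwf.has_min
      ((fun i => f i (X i)) '' {i | n i ≤ N ∧ code i = cd}) (hI.nonempty.image _)
    obtain ⟨j, hj, hij⟩ := hI.exists_gt i
    apply hmin _ ⟨j, hj, rfl⟩
    have hli : ell (A i) (f i) (X i) ≤ N := le_trans ((h2 i).1.id_le _) hi.1
    have hlj : ell (A j) (f j) (X j) ≤ N := le_trans ((h2 j).1.id_le _) hj.1
    have hc : code i = code j := hi.2.trans hj.2.symm
    have e1 : ell (A i) (f i) (X i) = ell (A j) (f j) (X j) := by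
      have := congrArg (fun p => (p.1 : ℕ)) hc
      simp only [code] at this
      omega
    have e2 : ∀ k ≤ ell (A i) (f i) (X i), X j k = X i k := by
      intro k hk
      have := congrArg (fun p => (p.2 ⟨k, by omega⟩ : ℕ)) hc
      simp only [code] at this
      have a1 : X i k ≤ n i := (h2 i).1.monotone hk
      have a2 : X j k ≤ n j := (h2 j).1.monotone (e1 ▸ hk)
      have a3 := hi.1
      have a4 := hj.1
      omega
    have hXj : Dom (A j) (X j) := (h2 j).mono (h1 j)
    have hXj' : Dom (A (i + 1)) (X j) := hXj.mono (hanti _ _ hij)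
    have e3 : f i (X j) = f i (X i) :=
      ell_spec (hB i).lc ((h2 i).mono (h1 i)) _ (hXj'.mono (h1 i)) e2
    have e4 := h5 i (X j) hXj' e2
    rw [e3] at e4
    show lt (f j (X j)) (f i (X i))
    rcases hdec (i + 1) j hij _ hXj with h | h
    · rw [h]; exact e4
    · exact hlt _ _ _ h e4
  have hbig : ∀ N, ∃ i₀, ∀ j ≥ i₀, N < n j := by
    intro N
    obtain ⟨M, hM⟩ := (hfin N).bddAbove
    refine ⟨M + 1, fun j hj => ?_⟩
    by_contra h
    have := hM (show j ∈ {i | n i ≤ N} from not_lt.1 h)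
    omega
  set Aω : Set ℕ := {x | ∀ i, x ∈ A i} with hAω
  have hAωsub : ∀ i, Aω ⊆ A i := fun i x hx => hx i
  have hAωinf : Aω.Infinite := by
    apply Set.infinite_of_forall_exists_gt
    intro N
    obtain ⟨i₀, hi₀⟩ := hbig N
    obtain ⟨_, ⟨i, hi, rfl⟩, hmin⟩ := (wellFounded_lt (α := ℕ)).has_min (n '' {j | i₀ ≤ j})
      ⟨_, i₀, le_refl i₀, rfl⟩
    refine ⟨n i, ?_, hi₀ i hi⟩
    have a1 : ∀ j, i + 1 ≤ j → n i ∈ A j := by
      intro j hj
      induction j, hj using Nat.le_induction with
      | base => exact (h2 i).2 _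
      | succ j hij ih =>
        refine h3 j _ ih (not_lt.1 (hmin _ ⟨j, ?_, rfl⟩))
        have : i₀ ≤ i := hi
        show i₀ ≤ j
        omega
    intro j
    exact hanti j (max j (i + 1)) (le_max_left _ _) (a1 _ (le_max_right _ _))
  have hev : ∀ Y, ∃ q, Dom Aω Y → ∃ i, ∀ j ≥ i, f j Y = q := by
    intro Y
    obtain ⟨_, ⟨i, rfl⟩, hmin⟩ := hwf.has_min (Set.range (fun i => f i Y)) (Set.range_nonempty _)
    refine ⟨f i Y, fun hY => ⟨i, fun j hj => ?_⟩⟩
    rcases hdec i j hj Y (hY.mono (hAωsub j)) with h | h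
    · exact h
    · exact absurd h (hmin _ ⟨j, rfl⟩)
  choose fω hfω using hev
  have hstab : ∀ Y, Dom Aω Y → ∃ i l, ∀ j ≥ i, f j Y = fω Y ∧ ConstOn (A j) (f j) Y l := by
    intro Y hY
    obtain ⟨i, hi⟩ := hfω Y hY
    refine ⟨i, ell (A i) (f i) Y, fun j hj => ⟨hi j hj, ?_⟩⟩
    induction j, hj using Nat.le_induction with
    | base => exact ell_spec (hB i).lc (hY.mono (hAωsub i))
    | succ j hij ih =>
      have e : f (j + 1) Y = f j Y := by rw [hi j hij, hi (j + 1) (by omega)]
      rcases h6 j Y (hY.mono (hAωsub _)) with h | h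
      · rw [e] at h; exact absurd h (hirr _)
      · intro Z hZ hZY
        rw [h Z hZ (fun k hk => hZY k (hk.trans (ell_le ih))), e]
        exact ih Z (hZ.mono (h1 j)) hZY
  have hBω : Bad le Aω fω := by
    refine ⟨hAωinf, fun Y hY => ?_, fun Y hY => ?_⟩
    · obtain ⟨i, l, hi⟩ := hstab Y hY
      refine ⟨l, fun Z hZ hZY => ?_⟩
      obtain ⟨i', hi'⟩ := hfω Z hZ
      rw [← hi' (max i i') (le_max_right _ _), ← (hi (max i i') (le_max_left _ _)).1]
      exact (hi (max i i') (le_max_left _ _)).2 Z (hZ.mono (hAωsub _)) hZY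
    · obtain ⟨i, hi⟩ := hfω Y hY
      obtain ⟨i', hi'⟩ := hfω _ hY.sh
      rw [← hi' (max i i') (le_max_right _ _), ← hi (max i i') (le_max_left _ _)]
      exact (hB _).bad Y (hY.mono (hAωsub _))
  obtain ⟨A', f', hc⟩ := H _ _ hBω
  have hci : ∀ i, Cand le lt (A i) (f i) A' f' := by
    intro i
    refine ⟨hc.bad, hc.sub.trans (hAωsub i), fun Y hY => ?_⟩
    have hY' := hY.mono hc.sub
    obtain ⟨i', hi'⟩ := hfω Y hY'
    have e := hc.lt Y hY
    rw [← hi' (max i i') (le_max_right _ _)] at e
    rcases hdec i (max i i') (le_max_left _ _) Y (hY'.mono (hAωsub _)) with h | h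
    · rw [← h]; exact e
    · exact hlt _ _ _ e h
  obtain ⟨Y, hY, -⟩ := exists_extend hc.bad.inf id 0 (by simp) (by simp)
  obtain ⟨i, l, hi⟩ := hstab Y (hY.mono hc.sub)
  obtain ⟨i₀, hi₀⟩ := hbig (Y l)
  have a1 := hi₀ (max i i₀) (le_max_right _ _)
  have a2 := h4 (max i i₀) A' f' (hci _) Y hY
  have a3 : Y (ell (A (max i i₀)) (f (max i i₀)) Y) ≤ Y l :=
    hY.1.monotone (ell_le (hi _ (le_max_left _ _)).2)
  simp only [hn] at a1
  omega

end MBA

end Pool.Agent.Work.MP_4833ba_an
end

-- merged part: Pool.Agent.Work.MP_4833ba_an.Wqo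
section
/-!
# The embedding order on ultrafilter trees is a well-quasi-order
-/

namespace Pool.Agent.Work.MP_4833ba_an

open Filter

lemma U_le : (U : Filter ℕ) ≤ atTop := Nat.hyperfilter_le_atTop

/-- embedding of trees; at a joint coloured step the two elements are chosen one after the
other -/
inductive Emb {κ : Type} : Tr κ → Tr κ → Prop
  | nil (r : Tr κ) : Emb Tr.nil r
  | left (ch' : ℕ → Tr κ) (r : Tr κ) (S : Set ℕ) (hS : S ∈ U)
      (h : ∀ z ∈ S, Emb (ch' z) r) : Emb (Tr.node none ch') r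
  | right (r' : Tr κ) (d : Option κ) (ch : ℕ → Tr κ) (S : Set ℕ) (hS : S ∈ U)
      (h : ∀ z ∈ S, Emb r' (ch z)) : Emb r' (Tr.node d ch)
  | both (c : κ) (ch' ch : ℕ → Tr κ) (S : Set ℕ) (hS : S ∈ U) (T : ℕ → Set ℕ)
      (hT : ∀ y ∈ S, T y ∈ U) (h : ∀ y ∈ S, ∀ z ∈ T y, Emb (ch' y) (ch z)) :
      Emb (Tr.node (some c) ch') (Tr.node (some c) ch)

variable {κ : Type}

lemma Emb.left' {ch' : ℕ → Tr κ} {r : Tr κ} (h : ∀ᶠ z in (U : Filter ℕ), Emb (ch' z) r) :
    Emb (Tr.node none ch') r := Emb.left ch' r _ h (fun _ hz => hz)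

lemma Emb.right' {r' : Tr κ} {d : Option κ} {ch : ℕ → Tr κ}
    (h : ∀ᶠ z in (U : Filter ℕ), Emb r' (ch z)) : Emb r' (Tr.node d ch) :=
  Emb.right r' d ch _ h (fun _ hz => hz)

lemma Emb.both' {c : κ} {ch' ch : ℕ → Tr κ}
    (h : ∀ᶠ y in (U : Filter ℕ), ∀ᶠ z in (U : Filter ℕ), Emb (ch' y) (ch z)) :
    Emb (Tr.node (some c) ch') (Tr.node (some c) ch) :=
  Emb.both c ch' ch _ h (fun y => {z | Emb (ch' y) (ch z)}) (fun _ hy => hy) (fun _ _ _ hz => hz)

lemma Emb.inv {r' r : Tr κ} (h : Emb r' r) : r' = Tr.nil ∨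
    (∃ ch', r' = Tr.node none ch' ∧ ∀ᶠ z in (U : Filter ℕ), Emb (ch' z) r) ∨
    (∃ d ch, r = Tr.node d ch ∧ ∀ᶠ z in (U : Filter ℕ), Emb r' (ch z)) ∨
    (∃ c ch' ch, r' = Tr.node (some c) ch' ∧ r = Tr.node (some c) ch ∧
      ∀ᶠ y in (U : Filter ℕ), ∀ᶠ z in (U : Filter ℕ), Emb (ch' y) (ch z)) := by
  cases h with
  | nil _ => exact Or.inl rfl
  | left ch' _ S hS h => exact Or.inr (Or.inl ⟨ch', rfl, Filter.mem_of_superset hS h⟩)
  | right _ d ch S hS h =>
    exact Or.inr (Or.inr (Or.inl ⟨d, ch, rfl, Filter.mem_of_superset hS h⟩))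
  | both c ch' ch S hS T hT h =>
    exact Or.inr (Or.inr (Or.inr ⟨c, ch', ch, rfl, rfl,
      Filter.mem_of_superset hS (fun y hy => Filter.mem_of_superset (hT y hy) (h y hy))⟩))

theorem Emb.trans' (r₃ : Tr κ) : ∀ r₂ r₁ : Tr κ, Emb r₁ r₂ → Emb r₂ r₃ → Emb r₁ r₃ := by
  induction r₃ with
  | nil =>
    intro r₂
    induction r₂ with
    | nil => intro r₁ h _; exact h
    | node d₂ ch₂ ih₂ =>
      intro r₁
      induction r₁ with
      | nil => intro _ _; exact Emb.nil _
      | node d₁ ch₁ ih₁ =>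
        intro h12 h23
        rcases h12.inv with h | ⟨ch', e, h⟩ | ⟨d, ch, e, h⟩ | ⟨c, ch', ch, e, e', h⟩
        · cases h
        · cases e
          exact Emb.left' (h.mono (fun z hz => ih₁ z hz h23))
        · cases e
          rcases h23.inv with g | ⟨ch', e, g⟩ | ⟨d, ch, e, g⟩ | ⟨c, ch', ch, e, e', g⟩
          · cases g
          · cases e
            obtain ⟨z, hz, hz'⟩ := (h.and g).exists
            exact ih₂ z _ hz hz'
          · cases e
          · cases e'
        · cases e'
          rcases h23.inv with g | ⟨ch', e, g⟩ | ⟨d, ch, e, g⟩ | ⟨c, ch', ch, e, e', g⟩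
          · cases g
          · cases e
          · cases e
          · cases e'
  | node d₃ ch₃ ih₃ =>
    intro r₂
    induction r₂ with
    | nil =>
      intro r₁
      induction r₁ with
      | nil => intro _ _; exact Emb.nil _
      | node d₁ ch₁ ih₁ =>
        intro h12 h23
        rcases h12.inv with h | ⟨ch', e, h⟩ | ⟨d, ch, e, h⟩ | ⟨c, ch', ch, e, e', h⟩
        · cases h
        · cases e
          exact Emb.left' (h.mono (fun z hz => ih₁ z hz h23))
        · cases e
        · cases e'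
    | node d₂ ch₂ ih₂ =>
      intro r₁
      induction r₁ with
      | nil => intro _ _; exact Emb.nil _
      | node d₁ ch₁ ih₁ =>
        intro h12 h23
        rcases h23.inv with g | ⟨ch', e, g⟩ | ⟨d, ch, e, g⟩ | ⟨c, ch', ch, e, e', g⟩
        · cases g
        · cases e
          rcases h12.inv with h | ⟨ch', e, h⟩ | ⟨d, ch, e, h⟩ | ⟨c, ch', ch, e, e', h⟩
          · cases h
          · cases e
            exact Emb.left' (h.mono (fun z hz => ih₁ z hz h23))
          · cases e
            obtain ⟨z, hz, hz'⟩ := (h.and g).exists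
            exact ih₂ z _ hz hz'
          · cases e'
        · cases e
          exact Emb.right' (g.mono (fun z hz => ih₃ z _ _ h12 hz))
        · cases e
          cases e'
          rcases h12.inv with h | ⟨ch', e, h⟩ | ⟨d, ch, e, h⟩ | ⟨c, ch', ch, e, e', h⟩
          · cases h
          · cases e
            exact Emb.left' (h.mono (fun z hz => ih₁ z hz h23))
          · cases e
            obtain ⟨y, hy, hy'⟩ := (h.and g).exists
            exact Emb.right' (hy'.mono (fun z hz => ih₃ z _ _ hy hz))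
          · cases e
            cases e'
            refine Emb.both' (h.mono (fun x hx => ?_))
            obtain ⟨y, hy, hy'⟩ := (hx.and g).exists
            exact hy'.mono (fun z hz => ih₃ z _ _ hy hz)

theorem Emb.trans {r₁ r₂ r₃ : Tr κ} (h : Emb r₁ r₂) (g : Emb r₂ r₃) : Emb r₁ r₃ :=
  Emb.trans' r₃ r₂ r₁ h g

/-- hereditarily, generic children increase -/
inductive Good : Tr κ → Prop
  | nil : Good Tr.nil
  | node (d : Option κ) (ch : ℕ → Tr κ) (h : ∀ y, Good (ch y))
      (hu : ∀ᶠ y in (U : Filter ℕ), ∀ᶠ z in (U : Filter ℕ), Emb (ch y) (ch z)) :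
      Good (Tr.node d ch)

/-- children of the root -/
def Tr.kids : Tr κ → ℕ → Tr κ
  | Tr.nil => fun _ => Tr.nil
  | Tr.node _ ch => ch

/-- label of the root -/
def Tr.top : Tr κ → Option (Option κ)
  | Tr.nil => none
  | Tr.node d _ => some d

lemma Good.kids {r : Tr κ} (h : Good r) (y : ℕ) : Good (r.kids y) := by
  cases h with
  | nil => exact Good.nil
  | node d ch h _ => exact h y

lemma Tr.eq_node {r : Tr κ} {d : Option κ} (h : r.top = some d) : r = Tr.node d r.kids := by
  cases r with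
  | nil => cases h
  | node d' ch => cases h; rfl

/-- the child relation -/
def Child (a b : Tr κ) : Prop := ∃ d ch y, b = Tr.node d ch ∧ a = ch y

lemma child_wf : WellFounded (Child (κ := κ)) := by
  refine ⟨fun r => ?_⟩
  induction r with
  | nil => exact Acc.intro _ (fun a ⟨_, _, _, h, _⟩ => by cases h)
  | node d ch ih =>
    refine Acc.intro _ (fun a ⟨_, _, y, h, e⟩ => ?_)
    cases h
    rw [e]; exact ih y

/-- put one element in front -/
def cns (x : ℕ) (X : ℕ → ℕ) : ℕ → ℕ
  | 0 => x
  | i + 1 => X i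

lemma Dom.cns {B : Set ℕ} {X : ℕ → ℕ} (hX : Dom B X) {x : ℕ} (hx : x < X 0) (hB : x ∈ B) :
    Dom B (cns x X) := by
  refine ⟨strictMono_nat_of_lt_succ (fun i => ?_), fun i => ?_⟩
  · cases i with
    | zero => exact hx
    | succ i => exact hX.1 (Nat.lt_succ_self i)
  · cases i with
    | zero => exact hB
    | succ i => exact hX.2 i

lemma cns_sh (X : ℕ → ℕ) : cns (X 0) (sh X) = X := by
  funext i
  cases i <;> rfl

/-- recursive choice along the shift -/
noncomputable def pick (B : Set ℕ) (P : (ℕ → ℕ) → ℕ → Prop) (R : (ℕ → ℕ) → ℕ → ℕ → Prop)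
    (X : ℕ → ℕ) : ℕ :=
  sInf {y | P X y ∧ ∀ x, x < X 0 → x ∈ B → R (cns x X) (pick B P R (cns x X)) y}
termination_by X 0
decreasing_by assumption

lemma LC.ev {Q : Type} {A : Set ℕ} {f : (ℕ → ℕ) → Q} (h : LC A f) {X : ℕ → ℕ} (hX : Dom A X) :
    ∀ᶠ n in atTop, ConstOn A f X n := by
  obtain ⟨n, hn⟩ := h X hX
  exact (eventually_ge_atTop n).mono (fun m hm => hn.mono hm)

lemma exists_pick (B : Set ℕ) (P : (ℕ → ℕ) → ℕ → Prop) (R : (ℕ → ℕ) → ℕ → ℕ → Prop)
    (hP : ∀ X, Dom B X → ∀ᶠ y in (U : Filter ℕ), P X y)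
    (hR : ∀ X y, Dom B X → P X y → ∀ᶠ z in (U : Filter ℕ), R X y z)
    (lcP : LC B P) (lcR : LC B R) :
    ∃ y : (ℕ → ℕ) → ℕ, LC B y ∧ ∀ X, Dom B X → P X (y X) ∧ R X (y X) (y (sh X)) := by
  have spec : ∀ n X, X 0 = n → Dom B X → P X (pick B P R X) ∧
      ∀ x, x < X 0 → x ∈ B → R (cns x X) (pick B P R (cns x X)) (pick B P R X) := by
    intro n
    induction n using Nat.strong_induction_on with
    | _ n ih =>
      intro X hn hX
      have h1 : ∀ᶠ y in (U : Filter ℕ), ∀ x ∈ Finset.range (X 0),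
          x ∈ B → R (cns x X) (pick B P R (cns x X)) y := by
        rw [Filter.eventually_all_finset]
        intro x hx
        have hx' := Finset.mem_range.1 hx
        by_cases hB : x ∈ B
        · exact (hR _ _ (hX.cns hx' hB) (ih x (hn ▸ hx') _ rfl (hX.cns hx' hB)).1).mono
            (fun z hz _ => hz)
        · exact Eventually.of_forall (fun z h => absurd h hB)
      obtain ⟨y, hy1, hy2⟩ := ((hP X hX).and h1).exists
      have hne : {y | P X y ∧ ∀ x, x < X 0 → x ∈ B →
          R (cns x X) (pick B P R (cns x X)) y}.Nonempty :=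
        ⟨y, hy1, fun x hx => hy2 x (Finset.mem_range.2 hx)⟩
      have := Nat.sInf_mem hne
      rw [← pick] at this
      exact this
  have lc : ∀ n X, X 0 = n → Dom B X → ∀ᶠ m in atTop, ConstOn B (pick B P R) X m := by
    intro n
    induction n using Nat.strong_induction_on with
    | _ n ih =>
      intro X hn hX
      have h1 : ∀ᶠ m in atTop, ∀ x ∈ Finset.range (X 0), x ∈ B →
          ConstOn B (pick B P R) (cns x X) m ∧ ConstOn B R (cns x X) m := by
        rw [Filter.eventually_all_finset]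
        intro x hx
        have hx' := Finset.mem_range.1 hx
        by_cases hB : x ∈ B
        · exact ((ih x (hn ▸ hx') _ rfl (hX.cns hx' hB)).and (lcR.ev (hX.cns hx' hB))).mono
            (fun z hz _ => hz)
        · exact Eventually.of_forall (fun z h => absurd h hB)
      refine (h1.and (lcP.ev hX)).mono (fun m hm Y hY hYX => ?_)
      have e0 : Y 0 = X 0 := hYX 0 (Nat.zero_le _)
      rw [pick.eq_def B P R Y, pick.eq_def B P R X, hm.2 Y hY hYX, e0]
      congr 1
      ext y
      refine and_congr_right (fun _ => forall_congr' (fun x => forall_congr' (fun hx =>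
        forall_congr' (fun hB => ?_))))
      have hc := hm.1 x (Finset.mem_range.2 hx) hB
      have hd : Dom B (cns x Y) := hY.cns (e0 ▸ hx) hB
      have ha : ∀ i ≤ m, cns x Y i = cns x X i := by
        intro i hi
        cases i with
        | zero => rfl
        | succ i => exact hYX i (by omega)
      rw [hc.1 _ hd ha, hc.2 _ hd ha]
  refine ⟨pick B P R, fun X hX => (lc _ X rfl hX).exists, fun X hX => ⟨(spec _ X rfl hX).1, ?_⟩⟩
  have := (spec _ (sh X) rfl hX.sh).2 (X 0) (hX.1 (Nat.zero_lt_succ 0)) (hX.2 0)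
  rwa [cns_sh] at this

lemma LC.pair {Q Q' : Type} {A : Set ℕ} {f : (ℕ → ℕ) → Q} (h : LC A f) (F : Q → Q → Q') :
    LC A (fun X => F (f X) (f (sh X))) := by
  intro X hX
  obtain ⟨n, hn⟩ := h X hX
  obtain ⟨m, hm⟩ := h _ hX.sh
  refine ⟨max n (m + 1), fun Y hY hYX => ?_⟩
  show F (f Y) (f (sh Y)) = F (f X) (f (sh X))
  rw [hn Y hY (fun i hi => hYX i (hi.trans (le_max_left _ _))),
    hm _ hY.sh (fun i hi => hYX (i + 1) ((Nat.succ_le_succ hi).trans (le_max_right _ _)))]

lemma Good.child_emb {d : Option κ} {ch : ℕ → Tr κ} (h : Good (Tr.node d ch)) :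
    ∀ᶠ y in (U : Filter ℕ), Emb (ch y) (Tr.node d ch) := by
  cases h with
  | node _ _ _ hu => exact hu.mono (fun y hy => Emb.right' hy)

lemma descent [Finite κ] (A : Set ℕ) (f : (ℕ → ℕ) → {r : Tr κ // Good r})
    (h : Bad (fun a b : {r : Tr κ // Good r} => Emb a.1 b.1) A f) :
    ∃ A' f', Cand (fun a b : {r : Tr κ // Good r} => Emb a.1 b.1)
      (fun a b : {r : Tr κ // Good r} => Relation.TransGen Child a.1 b.1 ∧ Emb a.1 b.1)
      A f A' f' := by
  obtain ⟨B, hBA, hB, k, hk⟩ := ramsey h.inf (fun X => (f X).1.top)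
    (h.lc.pair (fun a _ => a.1.top))
  obtain ⟨X₀, hX₀, -⟩ := exists_extend hB id 0 (by simp) (by simp)
  have hlc : LC B f := h.lc.mono hBA
  cases k with
  | none =>
    exfalso
    apply h.bad X₀ (hX₀.mono hBA)
    have := hk X₀ hX₀
    cases e : (f X₀).1 with
    | nil => exact Emb.nil _
    | node d ch => simp only [e] at this; cases this
  | some d =>
    have hnode : ∀ X, Dom B X → (f X).1 = Tr.node d (f X).1.kids :=
      fun X hX => Tr.eq_node (hk X hX)
    obtain ⟨y, hy, hyP⟩ := exists_pick B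
      (fun X y => (∀ᶠ z in (U : Filter ℕ), ¬ Emb ((f X).1.kids y) ((f (sh X)).1.kids z)) ∧
        Emb ((f X).1.kids y) (f X).1)
      (fun X y z => ¬ Emb ((f X).1.kids y) ((f (sh X)).1.kids z))
      (by
        intro X hX
        refine Filter.Eventually.and ?_ ?_
        · have hb := h.bad X (hX.mono hBA)
          have e1 := hnode X hX
          have e2 := hnode _ hX.sh
          by_contra hc
          apply hb
          rw [← Ultrafilter.eventually_not] at hc
          have hc' : ∀ᶠ y in (U : Filter ℕ), ∀ᶠ z in (U : Filter ℕ),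
              Emb ((f X).1.kids y) ((f (sh X)).1.kids z) := hc.mono (fun y hy => by
            rw [Ultrafilter.eventually_not, not_not] at hy; exact hy)
          show Emb (f X).1 (f (sh X)).1
          rw [e1, e2]
          cases d with
          | none => exact Emb.left' (hc'.mono (fun y hy => Emb.right' hy))
          | some c => exact Emb.both' hc'
        · have hg := (f X).2
          have e1 := hnode X hX
          rw [e1] at hg
          have := hg.child_emb
          rw [← e1] at this
          exact this)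
      (fun X y _ hP => hP.1)
      (hlc.pair (fun a b y => (∀ᶠ z in (U : Filter ℕ), ¬ Emb (a.1.kids y) (b.1.kids z)) ∧
        Emb (a.1.kids y) a.1))
      (hlc.pair (fun a b y z => ¬ Emb (a.1.kids y) (b.1.kids z)))
    refine ⟨B, fun X => ⟨(f X).1.kids (y X), (f X).2.kids _⟩, ⟨hB, ?_, ?_⟩, hBA, ?_⟩
    · intro X hX
      obtain ⟨n, hn1, hn2⟩ := ((hlc.ev hX).and (hy.ev hX)).exists
      refine ⟨n, fun Y hY hYX => ?_⟩
      apply Subtype.ext
      show (f Y).1.kids (y Y) = (f X).1.kids (y X)
      rw [hn1 Y hY hYX, hn2 Y hY hYX]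
    · intro X hX
      exact (hyP X hX).2
    · intro X hX
      exact ⟨Relation.TransGen.single ⟨d, _, y X, hnode X hX, rfl⟩, (hyP X hX).1.2⟩

lemma generic_of_good [Finite κ] (p : ℕ → Tr κ) (hp : ∀ y, Good (p y)) :
    ∀ᶠ y in (U : Filter ℕ), ∀ᶠ z in (U : Filter ℕ), Emb (p y) (p z) := by
  by_contra hc
  rw [← Ultrafilter.eventually_not] at hc
  have hc' : ∀ᶠ y in (U : Filter ℕ), ∀ᶠ z in (U : Filter ℕ), ¬ Emb (p y) (p z) :=
    hc.mono (fun y hy => Ultrafilter.eventually_not.2 hy)
  obtain ⟨b, hb, hbA, hP⟩ := fusion (U : Filter ℕ) U_le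
    (fun s => ∀ z t, s = z :: t → (∀ᶠ w in (U : Filter ℕ), ¬ Emb (p z) (p w)) ∧
      ∀ y t', t = y :: t' → ¬ Emb (p y) (p z))
    (fun z t h => by cases h) (by
      intro s hs
      cases s with
      | nil =>
        refine hc'.mono (fun z hz z' t e => ?_)
        cases e
        exact ⟨hz, fun y t' e => by cases e⟩
      | cons y t =>
        refine (hc'.and (hs y t rfl).1).mono (fun z hz z' t' e => ?_)
        cases e
        exact ⟨hz.1, fun y t' e => by cases e; exact hz.2⟩) Set.univ Filter.univ_mem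
  refine no_bad_array (Q := {r : Tr κ // Good r}) (le := fun a b => Emb a.1 b.1)
    (lt := fun a b => Relation.TransGen Child a.1 b.1 ∧ Emb a.1 b.1)
    (fun a b c => Emb.trans) (fun a b h => h.2)
    (Subrelation.wf (fun h => h.1) (InvImage.wf Subtype.val child_wf.transGen))
    (fun a b c h g => ⟨h.1.trans g.1, h.2.trans g.2⟩) descent Set.univ
    (fun X => ⟨p (b (X 0)), hp _⟩) ⟨Set.infinite_univ, ?_, ?_⟩
  · intro X _
    refine ⟨0, fun Y _ hYX => ?_⟩
    simp only [hYX 0 le_rfl]
  · intro X hX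
    have hs := pre_comp_sublist b X hX.1 2 (X 2) (fun i hi => hX.1 hi)
    exact (hP _ _ hs _ _ rfl).2 _ _ rfl

theorem good [Finite κ] (r : Tr κ) : Good r := by
  induction r with
  | nil => exact Good.nil
  | node d ch ih => exact Good.node d ch ih (generic_of_good ch ih)

theorem generic [Finite κ] (p : ℕ → Tr κ) :
    ∀ᶠ y in (U : Filter ℕ), ∀ᶠ z in (U : Filter ℕ), Emb (p y) (p z) :=
  generic_of_good p (fun _ => good _)

theorem Emb.refl [Finite κ] (r : Tr κ) : Emb r r :=
  (generic (fun _ => r)).exists.choose_spec.exists.choose_spec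

theorem child_emb [Finite κ] (d : Option κ) (ch : ℕ → Tr κ) :
    ∀ᶠ y in (U : Filter ℕ), Emb (ch y) (Tr.node d ch) := (good _).child_emb

theorem wqo [Finite κ] (p : ℕ → Tr κ) : ∃ i j, i < j ∧ Emb (p i) (p j) := by
  obtain ⟨i, hi⟩ := (generic p).exists
  obtain ⟨j, hj, hij⟩ := (hi.and (U_le (eventually_gt_atTop i))).exists
  exact ⟨i, j, hij, hj⟩

/-- generic children of the smaller tree embed -/
lemma Emb.kids_left [Finite κ] {d : Option κ} {ch' : ℕ → Tr κ} {r : Tr κ}
    (h : Emb (Tr.node d ch') r) : ∀ᶠ y in (U : Filter ℕ), Emb (ch' y) r :=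
  (child_emb d ch').mono (fun _ hy => hy.trans h)

/-- a coloured root cannot embed in the empty tree -/
lemma Emb.not_nil {c : κ} {ch' : ℕ → Tr κ} : ¬ Emb (Tr.node (some c) ch') Tr.nil := by
  intro h
  cases h

/-- different colours at the roots -/
lemma Emb.skip {c : κ} {d : Option κ} {ch' ch : ℕ → Tr κ} (hd : d ≠ some c)
    (h : Emb (Tr.node (some c) ch') (Tr.node d ch)) :
    ∀ᶠ z in (U : Filter ℕ), Emb (Tr.node (some c) ch') (ch z) := by
  rcases h.inv with h | ⟨ch', e, h⟩ | ⟨d, ch, e, h⟩ | ⟨c, ch', ch, e, e', h⟩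
  · cases h
  · cases e
  · cases e; exact h
  · cases e; cases e'; exact absurd rfl hd

/-- leftmost embedding: equal colours at the roots -/
lemma Emb.leftmost [Finite κ] {c : κ} {ch' ch : ℕ → Tr κ}
    (h : Emb (Tr.node (some c) ch') (Tr.node (some c) ch)) :
    ∀ᶠ y in (U : Filter ℕ), ∀ᶠ z in (U : Filter ℕ), Emb (ch' y) (ch z) := by
  rcases h.inv with h | ⟨ch', e, h⟩ | ⟨d, ch, e, h⟩ | ⟨c, ch', ch, e, e', h⟩
  · cases h
  · cases e
  · cases e
    exact (child_emb _ ch').mono (fun y hy => h.mono (fun z hz => hy.trans hz))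
  · cases e; cases e'; exact h

end Pool.Agent.Work.MP_4833ba_an
end

-- merged part: Pool.Agent.Work.MP_4833ba_an.Core
section
/-!
# Bounded loss: every tree simulates both parts of a suitable marking of itself
-/

namespace Pool.Agent.Work.MP_4833ba_an

open Filter

variable {κ : Type}

lemma Tr.map_map {κ' κ'' : Type} (m : κ → Option κ') (m' : κ' → Option κ'') (r : Tr κ) :
    (r.map m).map m' = r.map (fun c => (m c).bind m') := by
  induction r with
  | nil => rfl
  | node d ch ih =>
    simp only [Tr.map, ih]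
    cases d <;> rfl

lemma Tr.map_some (r : Tr κ) : r.map some = r := by
  induction r with
  | nil => rfl
  | node d ch ih =>
    simp only [Tr.map, ih]
    cases d <;> rfl

lemma Emb.map {κ' : Type} (m : κ → Option κ') {r' r : Tr κ} (h : Emb r' r) :
    Emb (r'.map m) (r.map m) := by
  induction h with
  | nil r => exact Emb.nil _
  | left ch' r S hS _ ih => exact Emb.left _ _ S hS ih
  | right r' d ch S hS _ ih => exact Emb.right _ _ _ S hS ih
  | both c ch' ch S hS T hT _ ih =>
    simp only [Tr.map, Option.bind_some]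
    cases m c with
    | none => exact Emb.left _ _ S hS (fun y hy => Emb.right _ _ _ (T y) (hT y hy) (ih y hy))
    | some c' => exact Emb.both _ _ _ S hS T hT ih

lemma Emb.none_mono [Finite κ] {ch' ch : ℕ → Tr κ} (d : Option κ)
    (h : ∀ᶠ y in (U : Filter ℕ), Emb (ch' y) (ch y)) : Emb (Tr.node none ch') (Tr.node d ch) :=
  Emb.left' ((h.and (child_emb d ch)).mono (fun _ hy => hy.1.trans hy.2))

lemma Emb.some_mono [Finite κ] {ch' ch : ℕ → Tr κ} (c : κ)
    (h : ∀ᶠ y in (U : Filter ℕ), Emb (ch' y) (ch y)) :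
    Emb (Tr.node (some c) ch') (Tr.node (some c) ch) :=
  Emb.both' ((h.and (generic ch)).mono (fun _ hy => hy.2.mono (fun _ hz => hy.1.trans hz)))

/-- inflate the nodes marked `false` -/
def infl : Tr (κ × Bool) → Tr (κ × Bool)
  | Tr.nil => Tr.nil
  | Tr.node none ch => Tr.node none (fun y => infl (ch y))
  | Tr.node (some (c, false)) ch =>
      Tr.node (some (c, false)) (fun _ => Tr.node none (fun y => infl (ch y)))
  | Tr.node (some (c, true)) ch => Tr.node (some (c, true)) (fun y => infl (ch y))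

/-- remove the `i`-th mark `true` on each branch -/
def unflag : Tr (κ × Bool) → ℕ → Tr (κ × Bool)
  | Tr.nil, _ => Tr.nil
  | Tr.node none ch, i => Tr.node none (fun y => unflag (ch y) i)
  | Tr.node (some (c, false)) ch, i => Tr.node (some (c, false)) (fun y => unflag (ch y) i)
  | Tr.node (some (c, true)) ch, 0 => Tr.node (some (c, false)) ch
  | Tr.node (some (c, true)) ch, i + 1 => Tr.node (some (c, true)) (fun y => unflag (ch y) i)

/-- the colours marked `true` on a generic branch form the word `w` -/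
def HasWord : Tr (κ × Bool) → List κ → Prop
  | Tr.nil, w => w = []
  | Tr.node none ch, w => ∀ᶠ y in (U : Filter ℕ), HasWord (ch y) w
  | Tr.node (some (_, false)) ch, w => ∀ᶠ y in (U : Filter ℕ), HasWord (ch y) w
  | Tr.node (some (c, true)) ch, w =>
      ∃ w', w = c :: w' ∧ ∀ᶠ y in (U : Filter ℕ), HasWord (ch y) w'

/-- the same tree over the doubled alphabet -/
def lift (r : Tr κ) : Tr (κ ⊕ κ) := r.map (fun c => some (Sum.inl c))

/-- the `i`-th node marked `true` is inflated and gets a starred colour -/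
def star : Tr (κ × Bool) → ℕ → Tr (κ ⊕ κ)
  | Tr.nil, _ => Tr.nil
  | Tr.node none ch, i => Tr.node none (fun y => star (ch y) i)
  | Tr.node (some (c, false)) ch, i => Tr.node (some (Sum.inl c)) (fun y => star (ch y) i)
  | Tr.node (some (c, true)) ch, 0 =>
      Tr.node (some (Sum.inr c)) (fun _ => Tr.node none (fun y => lift (forget (ch y))))
  | Tr.node (some (c, true)) ch, i + 1 => Tr.node (some (Sum.inl c)) (fun y => star (ch y) i)

/-- the `i`-th node marked `true` is inflated -/
def blow : Tr (κ × Bool) → ℕ → Tr κ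
  | Tr.nil, _ => Tr.nil
  | Tr.node none ch, i => Tr.node none (fun y => blow (ch y) i)
  | Tr.node (some (c, false)) ch, i => Tr.node (some c) (fun y => blow (ch y) i)
  | Tr.node (some (c, true)) ch, 0 =>
      Tr.node (some c) (fun _ => Tr.node none (fun y => forget (ch y)))
  | Tr.node (some (c, true)) ch, i + 1 => Tr.node (some c) (fun y => blow (ch y) i)

/-- erase the starred colours -/
def unstar (r : Tr (κ ⊕ κ)) : Tr κ := r.map (Sum.elim some (fun _ => none))

lemma forget_nil : forget (Tr.nil : Tr (κ × Bool)) = Tr.nil := rfl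

lemma forget_none (ch : ℕ → Tr (κ × Bool)) :
    forget (Tr.node none ch) = Tr.node none (fun y => forget (ch y)) := rfl

lemma forget_some (c : κ) (b : Bool) (ch : ℕ → Tr (κ × Bool)) :
    forget (Tr.node (some (c, b)) ch) = Tr.node (some c) (fun y => forget (ch y)) := rfl

lemma unstar_lift (r : Tr κ) : unstar (lift r) = r := by
  rw [unstar, lift, Tr.map_map]
  exact Tr.map_some r

lemma forget_unflag (a : Tr (κ × Bool)) : ∀ i, forget (unflag a i) = forget a := by
  induction a with
  | nil => intro i; rfl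
  | node d ch ih =>
    intro i
    rcases d with _ | ⟨c, _ | _⟩
    · simp only [unflag, forget_none, ih]
    · simp only [unflag, forget_some, ih]
    · cases i with
      | zero => simp only [unflag, forget_some]
      | succ i => simp only [unflag, forget_some, ih]

lemma forget_infl_unflag (a : Tr (κ × Bool)) :
    ∀ i, forget (infl (unflag a i)) = blow (infl a) i := by
  induction a with
  | nil => intro i; rfl
  | node d ch ih =>
    intro i
    rcases d with _ | ⟨c, _ | _⟩
    · simp only [unflag, infl, blow, forget_none, ih]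
    · simp only [unflag, infl, blow, forget_some, forget_none, ih]
    · cases i with
      | zero => simp only [unflag, infl, blow, forget_some, forget_none]
      | succ i => simp only [unflag, infl, blow, forget_some, ih]

lemma HasWord.unflag (a : Tr (κ × Bool)) :
    ∀ i w, HasWord a w → HasWord (unflag a i) (w.eraseIdx i) := by
  induction a with
  | nil => intro i w h; cases h; rfl
  | node d ch ih =>
    intro i w h
    rcases d with _ | ⟨c, _ | _⟩
    · exact Filter.Eventually.mono h (fun y hy => ih y i w hy)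
    · exact Filter.Eventually.mono h (fun y hy => ih y i w hy)
    · obtain ⟨w', rfl, h⟩ := h
      cases i with
      | zero => exact h
      | succ i => exact ⟨w'.eraseIdx i, rfl, h.mono (fun y hy => ih y i w' hy)⟩

lemma HasWord.infl (a : Tr (κ × Bool)) : ∀ w, HasWord a w → HasWord (infl a) w := by
  induction a with
  | nil => intro w h; exact h
  | node d ch ih =>
    intro w h
    rcases d with _ | ⟨c, _ | _⟩
    · exact Filter.Eventually.mono h (fun y hy => ih y w hy)
    · exact Eventually.of_forall (fun _ => Filter.Eventually.mono h (fun y hy => ih y w hy))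
    · obtain ⟨w', rfl, h⟩ := h
      exact ⟨w', rfl, h.mono (fun y hy => ih y w' hy)⟩

lemma has_star (b : Tr (κ × Bool)) : ∀ i (w : List κ) (hi : i < w.length), HasWord b w →
    Emb (Tr.node (some (Sum.inr w[i])) (fun _ => Tr.nil)) (star b i) := by
  induction b with
  | nil => intro i w hi h; cases h; simp at hi
  | node d ch ih =>
    intro i w hi h
    rcases d with _ | ⟨c, _ | _⟩
    · exact Emb.right' (Filter.Eventually.mono h (fun y hy => ih y i w hi hy))
    · exact Emb.right' (Filter.Eventually.mono h (fun y hy => ih y i w hi hy))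
    · obtain ⟨w', rfl, h⟩ := h
      cases i with
      | zero =>
        exact Emb.both' (Eventually.of_forall (fun _ => Eventually.of_forall (fun _ => Emb.nil _)))
      | succ i =>
        exact Emb.right' (h.mono (fun y hy => ih y i w' (by simpa using hi) hy))

lemma no_star (c : κ) (ch' : ℕ → Tr (κ ⊕ κ)) (r : Tr κ) :
    ¬ Emb (Tr.node (some (Sum.inr c)) ch') (lift r) := by
  induction r with
  | nil => exact Emb.not_nil
  | node d ch ih =>
    intro h
    have h' : Emb (Tr.node (some (Sum.inr c)) ch')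
        (Tr.node (d.bind (fun c => some (Sum.inl c))) (fun y => lift (ch y))) := h
    obtain ⟨z, hz⟩ := (h'.skip (by cases d <;> simp)).exists
    exact ih z hz

lemma unstar_star [Finite κ] (b : Tr (κ × Bool)) : ∀ i, Emb (unstar (star b i)) (forget b) := by
  induction b with
  | nil => intro i; exact Emb.nil _
  | node d ch ih =>
    intro i
    rcases d with _ | ⟨c, _ | _⟩
    · exact Emb.none_mono _ (Eventually.of_forall (fun y => ih y i))
    · exact Emb.some_mono _ (Eventually.of_forall (fun y => ih y i))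
    · cases i with
      | zero =>
        refine Emb.left' (Eventually.of_forall (fun _ => ?_))
        refine Emb.none_mono _ (Eventually.of_forall (fun y => ?_))
        have := unstar_lift (forget (ch y))
        rw [unstar] at this
        rw [this]
        exact Emb.refl _
      | succ i => exact Emb.some_mono _ (Eventually.of_forall (fun y => ih y i))

/-- the hybrid lemma -/
lemma hybrid [Finite κ] (b' : Tr (κ × Bool)) : ∀ (i' : ℕ) (w : List κ), HasWord b' w →
    i' < w.length → ∀ (b : Tr (κ × Bool)) (i₁ i₂ : ℕ), i₁ < i₂ → Emb (star b' i') (star b i₁) →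
    Emb (star b' i') (star b i₂) → Emb (blow b' i') (forget b) := by
  induction b' with
  | nil => intro i' w _ _ b i₁ i₂ _ _ _; exact Emb.nil _
  | node d' ch' ih' =>
    have main : ∀ (c : κ) (j' : ℕ) (w' : List κ),
        (∀ᶠ y in (U : Filter ℕ), HasWord (ch' y) w') → j' < w'.length →
        ∀ (b : Tr (κ × Bool)) (i₁ i₂ : ℕ), i₁ < i₂ →
        Emb (Tr.node (some (Sum.inl c)) (fun y => star (ch' y) j')) (star b i₁) →
        Emb (Tr.node (some (Sum.inl c)) (fun y => star (ch' y) j')) (star b i₂) →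
        Emb (Tr.node (some c) (fun y => blow (ch' y) j')) (forget b) := by
      intro c j' w' hw hj b
      induction b with
      | nil => intro i₁ i₂ _ h _; exact absurd h Emb.not_nil
      | node d ch ih =>
        have step : ∀ (e : κ) (j₁ j₂ : ℕ), j₁ < j₂ →
            Emb (Tr.node (some (Sum.inl c)) (fun y => star (ch' y) j'))
              (Tr.node (some (Sum.inl e)) (fun y => star (ch y) j₁)) →
            Emb (Tr.node (some (Sum.inl c)) (fun y => star (ch' y) j'))
              (Tr.node (some (Sum.inl e)) (fun y => star (ch y) j₂)) →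
            Emb (Tr.node (some c) (fun y => blow (ch' y) j'))
              (Tr.node (some e) (fun y => forget (ch y))) := by
          intro e j₁ j₂ hj₁₂ h₁ h₂
          by_cases hec : e = c
          · subst hec
            refine Emb.both' ((hw.and (h₁.leftmost.and h₂.leftmost)).mono (fun y hy => ?_))
            exact (hy.2.1.and hy.2.2).mono
              (fun z hz => ih' y j' w' hy.1 hj _ j₁ j₂ hj₁₂ hz.1 hz.2)
          · have hne : (some (Sum.inl e) : Option (κ ⊕ κ)) ≠ some (Sum.inl c) := by simpa using hec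
            exact Emb.right' (((h₁.skip hne).and (h₂.skip hne)).mono
              (fun z hz => ih z j₁ j₂ hj₁₂ hz.1 hz.2))
        intro i₁ i₂ hi h₁ h₂
        rcases d with _ | ⟨e, _ | _⟩
        · have g₁ := Emb.skip (d := none) (by simp) h₁
          have g₂ := Emb.skip (d := none) (by simp) h₂
          exact Emb.right' ((g₁.and g₂).mono (fun z hz => ih z i₁ i₂ hi hz.1 hz.2))
        · exact step e i₁ i₂ hi h₁ h₂
        · cases i₁ with
          | zero =>
            exfalso
            obtain ⟨_, g₁⟩ := (Emb.skip (d := some (Sum.inr e)) (by simp) h₁).exists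
            have g₂ : Emb (Tr.node (some (Sum.inr w'[j'])) (fun _ => Tr.nil))
                (Tr.node (some (Sum.inl c)) (fun y => star (ch' y) j')) :=
              Emb.right' (hw.mono (fun y hy => has_star _ j' w' hj hy))
            exact no_star _ _ (Tr.node none (fun y => forget (ch y))) (g₂.trans g₁)
          | succ i₁ =>
            cases i₂ with
            | zero => omega
            | succ i₂ => exact step e i₁ i₂ (by omega) h₁ h₂
    intro i' w hw hi'
    rcases d' with _ | ⟨c, _ | _⟩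
    · intro b i₁ i₂ hi h₁ h₂
      have g₁ := Emb.kids_left (d := none) h₁
      have g₂ := Emb.kids_left (d := none) h₂
      exact Emb.left' ((Filter.Eventually.and hw (g₁.and g₂)).mono
        (fun y hy => ih' y i' w hy.1 hi' b i₁ i₂ hi hy.2.1 hy.2.2))
    · exact main c i' w hw hi'
    · obtain ⟨w', rfl, hw⟩ := hw
      cases i' with
      | succ i' => exact main c i' w' hw (by simpa using hi')
      | zero =>
        intro b
        induction b with
        | nil => intro i₁ i₂ _ h _; exact absurd h Emb.not_nil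
        | node d ch ih =>
          intro i₁ i₂ hi h₁ h₂
          rcases d with _ | ⟨e, _ | _⟩
          · have g₁ := Emb.skip (d := none) (by simp) h₁
            have g₂ := Emb.skip (d := none) (by simp) h₂
            exact Emb.right' ((g₁.and g₂).mono (fun z hz => ih z i₁ i₂ hi hz.1 hz.2))
          · have g₁ := Emb.skip (d := some (Sum.inl e)) (by simp) h₁
            have g₂ := Emb.skip (d := some (Sum.inl e)) (by simp) h₂
            exact Emb.right' ((g₁.and g₂).mono (fun z hz => ih z i₁ i₂ hi hz.1 hz.2))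
          · cases i₂ with
            | zero => omega
            | succ i₂ =>
              have g₂ := Emb.skip (d := some (Sum.inl e)) (by simp) h₂
              cases i₁ with
              | succ i₁ =>
                have g₁ := Emb.skip (d := some (Sum.inl e)) (by simp) h₁
                exact Emb.right' ((g₁.and g₂).mono
                  (fun z hz => ih z i₁ i₂ (by omega) hz.1 hz.2))
              | zero =>
                by_cases hec : e = c
                · subst hec
                  refine Emb.both' (Eventually.of_forall (fun _ => g₂.mono (fun z hz => ?_)))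
                  have g₃ := (hz.map (Sum.elim some (fun _ => none))).trans (unstar_star _ i₂)
                  refine Emb.trans ?_ g₃
                  refine Emb.right' (Eventually.of_forall (fun _ => ?_))
                  refine Emb.none_mono _ (Eventually.of_forall (fun y => ?_))
                  have := unstar_lift (forget (ch' y))
                  rw [unstar] at this
                  rw [this]
                  exact Emb.refl _
                · exfalso
                  obtain ⟨_, g₁⟩ :=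
                    (Emb.skip (d := some (Sum.inr e)) (by simpa using hec) h₁).exists
                  exact no_star _ _ (Tr.node none (fun y => forget (ch y))) g₁

lemma bounded_words [Finite κ] (p : ℕ → Tr κ)
    (hp : ∀ y, ∃ a w, forget a = p y ∧ HasWord a w ∧ Emb (forget (infl a)) (p y)) :
    ∃ (a : ℕ → Tr (κ × Bool)) (w : List κ), (∀ y, forget (a y) = p y) ∧
      (∀ᶠ y in (U : Filter ℕ), HasWord (a y) w) ∧
      ∀ᶠ y in (U : Filter ℕ), ∀ᶠ z in (U : Filter ℕ), Emb (forget (infl (a y))) (p z) := by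
  classical
  let J : Tr κ → Prop := fun π => ∀ᶠ z in (U : Filter ℕ), Emb π (p z)
  have hJ : ∀ π π', Emb π π' → J π' → J π := fun π π' h g => g.mono (fun _ hz => h.trans hz)
  have hS : ∀ᶠ y in (U : Filter ℕ), J (p y) := generic p
  have hmin : ∀ y, ∃ a w, forget a = p y ∧ HasWord a w ∧ (J (p y) → J (forget (infl a)) ∧
      ∀ a' w', forget a' = p y → HasWord a' w' → J (forget (infl a')) →
        w.length ≤ w'.length) := by
    intro y
    obtain ⟨a, w, h1, h2, h3⟩ := hp y
    by_cases hy : J (p y)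
    · have hex : ∃ n, ∃ a w, forget a = p y ∧ HasWord a w ∧ J (forget (infl a)) ∧
          w.length = n := ⟨_, a, w, h1, h2, hJ _ _ h3 hy, rfl⟩
      obtain ⟨a₀, w₀, g1, g2, g3, g4⟩ := Nat.find_spec hex
      refine ⟨a₀, w₀, g1, g2, fun _ => ⟨g3, fun a' w' k1 k2 k3 => ?_⟩⟩
      rw [g4]
      exact Nat.find_min' hex ⟨a', w', k1, k2, k3, rfl⟩
    · exact ⟨a, w, h1, h2, fun h => absurd h hy⟩
  choose a w h1 h2 h3 using hmin
  have hbasis : ∃ L : Finset (ℕ × ℕ), (∀ q ∈ L, J (p q.1) ∧ q.2 < (w q.1).length) ∧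
      ∀ q : ℕ × ℕ, J (p q.1) ∧ q.2 < (w q.1).length →
        ∃ q₀ ∈ L, Emb (star (infl (a q₀.1)) q₀.2) (star (infl (a q.1)) q.2) := by
    by_contra hc
    push Not at hc
    obtain ⟨f, -, hf⟩ := exists_seq_of_forall_finset_exists
      (fun q : ℕ × ℕ => J (p q.1) ∧ q.2 < (w q.1).length)
      (fun q₀ q => ¬ Emb (star (infl (a q₀.1)) q₀.2) (star (infl (a q.1)) q.2)) hc
    obtain ⟨i, j, hij, h⟩ := wqo (fun n => star (infl (a (f n).1)) (f n).2)
    exact hf i j hij h
  obtain ⟨L, hL1, hL2⟩ := hbasis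
  have hbound : ∀ y, J (p y) → (w y).length ≤ L.card := by
    intro y hy
    by_contra hlt
    have hq : ∀ i, ∃ q₀ : ℕ × ℕ, i < (w y).length →
        q₀ ∈ L ∧ Emb (star (infl (a q₀.1)) q₀.2) (star (infl (a y)) i) := by
      intro i
      by_cases hi : i < (w y).length
      · obtain ⟨q₀, k1, k2⟩ := hL2 (y, i) ⟨hy, hi⟩
        exact ⟨q₀, fun _ => ⟨k1, k2⟩⟩
      · exact ⟨(0, 0), fun h => absurd h hi⟩
    choose q hq using hq
    have hfin : ∀ i₁ i₂, i₁ < i₂ → i₂ < (w y).length → q i₁ ≠ q i₂ := by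
      intro i₁ i₂ hi hi₂ e
      obtain ⟨k1, k2⟩ := hq i₁ (hi.trans hi₂)
      obtain ⟨-, k3⟩ := hq i₂ hi₂
      rw [← e] at k3
      obtain ⟨k4, k5⟩ := hL1 _ k1
      have k6 := hybrid _ _ _ (HasWord.infl _ _ (h2 _)) k5 _ i₁ i₂ hi k2 k3
      rw [← forget_infl_unflag] at k6
      have k7 := (h3 _ k4).2 _ _ ((forget_unflag _ (q i₁).2).trans (h1 _))
        (HasWord.unflag _ _ _ (h2 _)) (hJ _ _ k6 (h3 y hy).1)
      rw [List.length_eraseIdx_of_lt k5] at k7
      omega
    obtain ⟨i₁, hi₁, i₂, hi₂, hne, e⟩ := Finset.exists_ne_map_eq_of_card_lt_of_maps_to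
      (s := Finset.range (w y).length) (t := L) (by rw [Finset.card_range]; omega) (f := q)
      (fun i hi => (hq i (Finset.mem_range.1 hi)).1)
    rcases lt_or_gt_of_ne hne with h | h
    · exact hfin _ _ h (Finset.mem_range.1 hi₂) e
    · exact hfin _ _ h (Finset.mem_range.1 hi₁) e.symm
  obtain ⟨w₀, -, hw₀⟩ := Ultrafilter.eq_pure_of_finite_mem (f := U.map w)
    (List.finite_length_le κ L.card) (hS.mono hbound)
  have hw₁ : ∀ᶠ y in (U : Filter ℕ), w y = w₀ := by
    have : {w₀} ∈ U.map w := by rw [hw₀]; exact Ultrafilter.mem_pure.2 rfl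
    exact this
  exact ⟨a, w₀, h1, hw₁.mono (fun y hy => hy ▸ h2 y), hS.mono (fun y hy => (h3 y hy).1)⟩

theorem exists_marking [Finite κ] (r : Tr κ) :
    ∃ a w, forget a = r ∧ HasWord a w ∧ Emb (forget (infl a)) r := by
  induction r with
  | nil => exact ⟨Tr.nil, [], rfl, rfl, Emb.nil _⟩
  | node d ch ih =>
    obtain ⟨a, w, h1, h2, h3⟩ := bounded_words ch ih
    cases d with
    | none =>
      refine ⟨Tr.node none a, w, ?_, h2, Emb.left' (h3.mono (fun y hy => Emb.right' hy))⟩
      simp only [forget_none, h1]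
    | some c =>
      refine ⟨Tr.node (some (c, true)) a, c :: w, ?_, ⟨w, rfl, h2⟩, Emb.both' h3⟩
      simp only [forget_some, h1]

/-- inflate all coloured nodes -/
def inflAll : Tr κ → Tr κ
  | Tr.nil => Tr.nil
  | Tr.node none ch => Tr.node none (fun y => inflAll (ch y))
  | Tr.node (some c) ch => Tr.node (some c) (fun _ => Tr.node none (fun y => inflAll (ch y)))

lemma sim_of_emb [Finite κ] (r' : Tr κ) : ∀ r, Emb (inflAll r') r → Sim r' r := by
  induction r' with
  | nil => intro r _; exact Sim.nil r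
  | node d' ch' ih' =>
    cases d' with
    | none =>
      intro r h
      exact Sim.left _ _ _ (Emb.kids_left (d := none) h) (fun z hz => ih' z r hz)
    | some c =>
      intro r
      induction r with
      | nil => intro h; exact absurd h Emb.not_nil
      | node d ch ih =>
        intro h
        by_cases hd : d = some c
        · subst hd
          obtain ⟨_, g⟩ := (Emb.leftmost h).exists
          exact Sim.both _ _ _ _ (g.and (child_emb none (fun y => inflAll (ch' y))))
            (fun z hz => ih' z _ (hz.2.trans hz.1))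
        · exact Sim.right _ _ _ _ (Emb.skip hd h) (fun z hz => ih z hz)

/-- a finite word as a tree -/
def word : List κ → Tr κ
  | [] => Tr.nil
  | c :: w => Tr.node (some c) (fun _ => word w)

lemma keep_false_emb [Finite κ] (a : Tr (κ × Bool)) :
    Emb (inflAll (keep false a)) (forget (infl a)) := by
  induction a with
  | nil => exact Emb.nil _
  | node d ch ih =>
    rcases d with _ | ⟨c, _ | _⟩
    · exact Emb.none_mono _ (Eventually.of_forall ih)
    · exact Emb.some_mono _ (Eventually.of_forall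
        (fun _ => Emb.none_mono _ (Eventually.of_forall ih)))
    · exact Emb.none_mono _ (Eventually.of_forall ih)

lemma keep_true_emb (a : Tr (κ × Bool)) :
    ∀ w, HasWord a w → Emb (inflAll (keep true a)) (word w) := by
  induction a with
  | nil => intro w _; exact Emb.nil _
  | node d ch ih =>
    intro w h
    rcases d with _ | ⟨c, _ | _⟩
    · exact Emb.left' (Filter.Eventually.mono h (fun y hy => ih y w hy))
    · exact Emb.left' (Filter.Eventually.mono h (fun y hy => ih y w hy))
    · obtain ⟨w', rfl, h⟩ := h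
      exact Emb.both' (Eventually.of_forall (fun _ => Eventually.of_forall
        (fun _ => Emb.left' (h.mono (fun y hy => ih y w' hy)))))

lemma word_emb (a : Tr (κ × Bool)) : ∀ w, HasWord a w → Emb (word w) (forget (infl a)) := by
  induction a with
  | nil => intro w h; cases h; exact Emb.nil _
  | node d ch ih =>
    intro w h
    rcases d with _ | ⟨c, _ | _⟩
    · exact Emb.right' (Filter.Eventually.mono h (fun y hy => ih y w hy))
    · exact Emb.right' (Eventually.of_forall
        (fun _ => Emb.right' (Filter.Eventually.mono h (fun y hy => ih y w hy))))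
    · obtain ⟨w', rfl, h⟩ := h
      exact Emb.both' (Eventually.of_forall (fun _ => h.mono (fun y hy => ih y w' hy)))

/-- the combinatorial core -/
theorem core : CoreStatement := by
  intro κ _ r
  obtain ⟨a, w, h1, h2, h3⟩ := exists_marking r
  exact ⟨a, h1, sim_of_emb _ _ ((keep_false_emb a).trans h3),
    sim_of_emb _ _ (((keep_true_emb a w h2).trans (word_emb a w h2)).trans h3)⟩

end Pool.Agent.Work.MP_4833ba_an
end
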